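import Pool.Agent.Y213.TM.Main3
import Pool.Agent.TH954.RankOne

/-!
# The points near the subgroups of dimension one on the subvarieties
-/

set_option autoImplicit false
set_option linter.unusedSectionVars false

open MvPolynomial WeierstrassCurve NumberField Height Pool.Agent.TH942 Pool.Agent.TH954
  Pool.Agent.TH954.V

namespace Pool.Agent.Y213.TM

/-- the height of a form -/
noncomputable def fht {L : Type} [Field L] [NumberField L] {n : ℕ}
    (f : MvPolynomial (Fin n × Fin 3) L) : ℝ :=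
  logHeight (fun m : f.support => coeff m.1 f)

lemma norm_ex {L : Type} [Field L] [NumberField L] {n : ℕ}
    (f : MvPolynomial (Fin n × Fin 3) L) (hf : f ≠ 0) :
    ∃ c : L, c ≠ 0 ∧ pht (C c * f) ≤ fht f := by
  classical
  obtain ⟨m0, hm0⟩ := MvPolynomial.support_nonempty.mpr hf
  have h0 : coeff m0 f ≠ 0 := MvPolynomial.mem_support_iff.mp hm0
  refine ⟨(coeff m0 f)⁻¹, inv_ne_zero h0, ?_⟩
  have hsupp : ∀ m, m ∈ (C (coeff m0 f)⁻¹ * f).support → m ∈ f.support := by
    intro m hm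
    rw [MvPolynomial.mem_support_iff, coeff_C_mul] at hm
    rw [MvPolynomial.mem_support_iff]
    exact right_ne_zero_of_mul hm
  unfold pht fht
  rw [← logHeight_smul_eq_logHeight (fun m : f.support => coeff m.1 f) (inv_ne_zero h0)]
  have h : (fun o : Option (C (coeff m0 f)⁻¹ * f).support =>
      o.elim (1 : L) (fun m => coeff m.1 (C (coeff m0 f)⁻¹ * f))) =
      ((coeff m0 f)⁻¹ • (fun m : f.support => coeff m.1 f)) ∘
        (fun o : Option (C (coeff m0 f)⁻¹ * f).support =>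
          o.elim (⟨m0, hm0⟩ : f.support) (fun m => ⟨m.1, hsupp m.1 m.2⟩)) := by
    funext o
    cases o with
    | none => simp [inv_mul_cancel₀ h0]
    | some m => simp [coeff_C_mul]
  rw [h]
  exact logHeight_comp_le _ _

theorem main {K : Type} [Field K] [NumberField K] {a b : K} (hD : 4 * a ^ 3 + 27 * b ^ 2 ≠ 0)
    (n D : ℕ) : ∃ (C2 : ℝ) (B2 : ℕ), 0 ≤ C2 ∧
      ∀ (L : Type) [Field L] [NumberField L] [DecidableEq L] [Algebra K L]
        (h : ℝ), 0 ≤ h → ∀ F : Set (MvPolynomial (Fin n × Fin 3) L), Deg D F →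
        (∀ f ∈ F, fht f ≤ h * Module.finrank ℚ L) →
      ∀ (P P0 : Fin n → SPt (algebraMap K L a) (algebraMap K L b)),
        (∀ i, logHeight (TH954.crd (P0 i)) ≤ h * Module.finrank ℚ L) →
        Module.rank ℤ (AddSubgroup.closure (Set.range (fun i => P i - P0 i))) ≤ 1 →
        (∀ f ∈ F, eval (fun p => TH954.crd (P p.1) p.2) f = 0) →
      ∃ (Q : Fin n → SPt (algebraMap K L a) (algebraMap K L b)) (M : Fin (n + 1) → Fin n → ℤ),
        (∀ l i, |M l i| ≤ B2) ∧
        (∀ i, logHeight (TH954.crd (Q i)) ≤ C2 * ((1 + h) * Module.finrank ℚ L)) ∧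
        (∃ z : Fin (n + 1) → SPt (algebraMap K L a) (algebraMap K L b), ∀ i,
          P i = Q i + ∑ l, M l i • z l) ∧ InX F Q M := by
  classical
  obtain ⟨C1, hC1, hcan'⟩ := can_unif hD
  have hcan : ∀ (L : Type) [Field L] [NumberField L] [DecidableEq L] [Algebra K L],
      ∃ q : SPt (algebraMap K L a) (algebraMap K L b) → ℝ, IsCan C1 q := by
    intro L _ _ _ _
    obtain ⟨q, h1, h2, h3, h4⟩ := hcan' L
    exact ⟨q, h1, h2, h3, h4⟩
  obtain ⟨C2, B2, hC2, hasm⟩ := asm hD n D C1 hC1 hcan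
  refine ⟨3 / 2 * (C2 * (3 / 2 + 5 / 2 * C1)) + (3 / 2 + 5 / 2 * C1), B2, by positivity, ?_⟩
  intro L _ _ _ _ h hh F hF hpF P P0 hP0 hrk hPX
  obtain ⟨q, hq⟩ := hcan L
  set DL : ℝ := (Module.finrank ℚ L : ℝ) with hDL
  have hDL1 : 1 ≤ DL := by
    have : 1 ≤ Module.finrank ℚ L := Module.finrank_pos
    rw [hDL]
    exact_mod_cast this
  have hDL0 : 0 ≤ DL := zero_le_one.trans hDL1
  have hD' : 4 * (algebraMap K L a) ^ 3 + 27 * (algebraMap K L b) ^ 2 ≠ 0 := by
    intro h0
    apply hD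
    apply (algebraMap K L).injective
    rw [map_zero, ← h0]
    simp only [map_add, map_mul, map_pow, map_ofNat]
  have hhDL : 0 ≤ h * DL := mul_nonneg hh hDL0
  have hqP0 : ∀ i, q (P0 i) ≤ (h + C1) * DL := by
    intro i
    have h3 := hq.le_ht (P0 i)
    have h4 := hP0 i
    rw [add_mul]
    linarith
  have htor : ∀ i (σ : SPt (algebraMap K L a) (algebraMap K L b)), IsOfFinAddOrder σ →
      logHeight (TH954.crd (P0 i + σ)) ≤ (3 / 2 * h + 5 / 2 * C1) * DL := by
    intro i σ hσ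
    have h1 := hq.ht_le (P0 i + σ)
    rw [q_add_tors hq.par hσ] at h1
    have h2 := hqP0 i
    nlinarith
  -- the normalised forms
  choose c hc0 hc using fun f : {f : MvPolynomial (Fin n × Fin 3) L // f ≠ 0} =>
    norm_ex f.1 f.2
  set F' : Set (MvPolynomial (Fin n × Fin 3) L) :=
    {g | ∃ (f : MvPolynomial (Fin n × Fin 3) L) (hf : f ≠ 0), f ∈ F ∧
      g = C (c ⟨f, hf⟩) * f} with hF'
  have hF'D : Deg D F' := by
    rintro g ⟨f, hf0, hf, rfl⟩
    obtain ⟨d, hd, hdD⟩ := hF f hf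
    refine ⟨d, ?_, hdD⟩
    intro m hm i
    refine hd m ?_ i
    rw [MvPolynomial.mem_support_iff, coeff_C_mul] at hm
    rw [MvPolynomial.mem_support_iff]
    exact right_ne_zero_of_mul hm
  have hF'h : ∀ g ∈ F', pht g ≤ (3 / 2 * h + 5 / 2 * C1) * DL := by
    rintro g ⟨f, hf0, hf, rfl⟩
    refine (hc ⟨f, hf0⟩).trans ((hpF f hf).trans ?_)
    have : 0 ≤ C1 * DL := mul_nonneg hC1 hDL0
    nlinarith
  have hF'X : ∀ g ∈ F', eval (fun p => TH954.crd (P p.1) p.2) g = 0 := by
    rintro g ⟨f, hf0, hf, rfl⟩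
    rw [map_mul, hPX f hf, mul_zero]
  have hback : ∀ {m : ℕ} (Q : Fin n → SPt (algebraMap K L a) (algebraMap K L b))
      (M : Fin m → Fin n → ℤ), InX F' Q M → InX F Q M := by
    intro m Q M hX L' _ _ _ _ _ ι hι z f hf
    by_cases hf0 : f = 0
    · rw [hf0, map_zero, map_zero]
    · have h1 := hX L' ι hι z _ ⟨f, hf0, hf, rfl⟩
      rw [map_mul (MvPolynomial.map (algebraMap L L')), map_C, map_mul, eval_C, mul_eq_zero] at h1
      rcases h1 with h1 | h1
      · exact absurd ((map_eq_zero (algebraMap L L')).mp h1) (hc0 _)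
      · exact h1
  set h' : ℝ := 3 / 2 * h + 5 / 2 * C1 with hh'
  have hh'0 : 0 ≤ h' := by positivity
  have hfinal : ∀ x : ℝ, x ≤ C2 * ((1 + h') * DL) → 3 / 2 * x + C1 * DL ≤
      (3 / 2 * (C2 * (3 / 2 + 5 / 2 * C1)) + (3 / 2 + 5 / 2 * C1)) * ((1 + h) * DL) := by
    intro x hx
    have e0 : 0 ≤ C1 * (h * DL) := mul_nonneg hC1 hhDL
    have e1 : (1 + h') * DL ≤ (3 / 2 + 5 / 2 * C1) * ((1 + h) * DL) := by
      rw [hh']
      nlinarith
    have e2 : x ≤ C2 * ((3 / 2 + 5 / 2 * C1) * ((1 + h) * DL)) :=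
      hx.trans (mul_le_mul_of_nonneg_left e1 hC2)
    nlinarith [mul_nonneg hC1 hDL0]
  rcases rank_one_gen hD' _ hrk with hall | ⟨R, -, hR, hgen⟩
  · -- torsion
    have hσ : ∀ i, IsOfFinAddOrder (P i - P0 i) := fun i =>
      hall _ (AddSubgroup.subset_closure (Set.mem_range_self i))
    refine ⟨P, 0, ?_, ?_, ⟨0, fun i => by simp⟩, ?_⟩
    · intro l i
      simp
    · intro i
      have h1 := htor i _ (hσ i)
      rw [add_sub_cancel] at h1
      refine h1.trans ?_
      have e0 : 0 ≤ C1 * (h * DL) := mul_nonneg hC1 hhDL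
      have e3 : 0 ≤ C2 * (3 / 2 + 5 / 2 * C1) * ((1 + h) * DL) := by positivity
      rw [hh']
      nlinarith [mul_nonneg hC1 hDL0]
    · intro L' _ _ _ _ _ ι hι z f hf
      simp only [Pi.zero_apply, zero_smul, Finset.sum_const_zero, add_zero]
      have h3 := eval_lift P (fun i => ι (P i)) (fun i j => hι _ j) f
      rw [hPX f hf, map_zero] at h3
      exact h3
  · choose t ht using fun i => hgen (P i - P0 i)
      (AddSubgroup.subset_closure (Set.mem_range_self i))
    have hPi : ∀ i, t i • R + (P0 i + (P i - P0 i - t i • R)) = P i := by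
      intro i
      abel
    have htT : t ∈ TT F' R (fun i => P0 i + (P i - P0 i - t i • R)) := by
      intro g hg
      simp_rw [hPi]
      exact hF'X g hg
    obtain ⟨Q, M, hM, hQ, ⟨z, hz⟩, hX⟩ := hasm L q hq h' hh'0 F' hF'D hF'h R
      (fun i => P0 i + (P i - P0 i - t i • R)) hR (fun i => htor i _ (ht i)) t htT
    refine ⟨Q, M, hM, ?_, ⟨z, fun i => ?_⟩, hback Q M hX⟩
    · intro i
      exact (hq.ht_le (Q i)).trans (hfinal _ (hQ i))
    · rw [← hz i, hPi]

theorem cone {K : Type} [Field K] [NumberField K] {a b : K} (hD : 4 * a ^ 3 + 27 * b ^ 2 ≠ 0)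
    (n D : ℕ) : ∃ (C3 ε : ℝ) (B2 : ℕ), 0 < ε ∧ 0 ≤ C3 ∧
      ∀ (L : Type) [Field L] [NumberField L] [DecidableEq L] [Algebra K L]
        (h : ℝ), 0 ≤ h → ∀ F : Set (MvPolynomial (Fin n × Fin 3) L), Deg D F →
        (∀ f ∈ F, fht f ≤ h * Module.finrank ℚ L) →
      ∀ (P A : Fin n → SPt (algebraMap K L a) (algebraMap K L b)),
        Module.rank ℤ (AddSubgroup.closure (Set.range A)) ≤ 1 →
        (∀ i, logHeight (TH954.crd (P i - A i)) ≤ h * Module.finrank ℚ L +
          ε * ∑ j, logHeight (TH954.crd (P j))) →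
        (∀ f ∈ F, eval (fun p => TH954.crd (P p.1) p.2) f = 0) →
      (∀ i, logHeight (TH954.crd (P i)) ≤ C3 * ((1 + h) * Module.finrank ℚ L)) ∨
      ∃ c : Fin n → ℤ, c ≠ 0 ∧ (∀ i, |c i| ≤ B2) ∧ InX F P (fun _ : Fin 1 => c) := by
  classical
  obtain ⟨C2, B2, hC2, hmain⟩ := main hD n D
  set ε : ℝ := 1 / (2 * (n * C2 + 1)) with hε
  have hε0 : 0 < ε := by positivity
  have hεn : n * C2 * ε ≤ 1 / 2 := by
    rw [hε, mul_one_div, div_le_iff₀ (by positivity)]
    linarith
  refine ⟨2 * (n * C2), ε, B2, hε0, by positivity, ?_⟩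
  intro L _ _ _ _ h hh F hF hpF P A hrk hPA hPX
  set DL : ℝ := (Module.finrank ℚ L : ℝ) with hDL
  have hDL1 : 1 ≤ DL := by
    have : 1 ≤ Module.finrank ℚ L := Module.finrank_pos
    rw [hDL]
    exact_mod_cast this
  have hDL0 : 0 < DL := zero_lt_one.trans_le hDL1
  set S : ℝ := ∑ j, logHeight (TH954.crd (P j)) with hS
  have hS0 : 0 ≤ S := Finset.sum_nonneg (fun j _ => logHeight_nonneg _)
  have hh'DL : (h + ε * S / DL) * DL = h * DL + ε * S := by
    rw [add_mul, div_mul_cancel₀ _ hDL0.ne']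
  obtain ⟨Q, M, hM, hQ, ⟨z, hz⟩, hX⟩ := hmain L (h + ε * S / DL) (by positivity) F hF (by
      intro f hf
      rw [hh'DL]
      have := hpF f hf
      have := mul_nonneg hε0.le hS0
      linarith) P (fun i => P i - A i) (by
      intro i
      rw [hh'DL]
      exact hPA i) (by
      have e : (fun i => P i - (P i - A i)) = A := by
        funext i
        exact sub_sub_cancel _ _
      change Module.rank ℤ (AddSubgroup.closure (Set.range (fun i => P i - (P i - A i)))) ≤ 1
      rw [e]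
      exact hrk) hPX
  by_cases hM0 : ∃ l, M l ≠ 0
  · right
    obtain ⟨l0, hl0⟩ := hM0
    refine ⟨M l0, hl0, hM l0, ?_⟩
    intro L' _ _ _ _ _ ι hι w f hf
    have h1 := hX L' ι hι (fun l => ι (z l) + if l = l0 then w 0 else 0) f hf
    have h2 : ∀ i, ι (Q i) + ∑ l, M l i • (ι (z l) + if l = l0 then w 0 else 0) =
        ι (P i) + ∑ l : Fin 1, M l0 i • w l := by
      intro i
      rw [hz i, map_add ι (Q i), map_sum]
      simp_rw [smul_add, Finset.sum_add_distrib, map_zsmul]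
      rw [Fin.sum_univ_one, add_assoc]
      congr 2
      rw [Finset.sum_eq_single l0]
      · simp
      · intro l _ hl
        simp [hl]
      · intro hl
        exact absurd (Finset.mem_univ _) hl
    simp_rw [h2] at h1
    exact h1
  · left
    push Not at hM0
    have hPQ : ∀ i, P i = Q i := by
      intro i
      rw [hz i]
      simp [hM0]
    have h1 : ∀ i, logHeight (TH954.crd (P i)) ≤ C2 * ((1 + h) * DL) + C2 * ε * S := by
      intro i
      have := hQ i
      rw [← hPQ i] at this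
      have e : C2 * ((1 + (h + ε * S / DL)) * DL) = C2 * ((1 + h) * DL) + C2 * ε * S := by
        have : (1 + (h + ε * S / DL)) * DL = DL + (h + ε * S / DL) * DL := by ring
        rw [this, hh'DL]
        ring
      rwa [e] at this
    have h2 : S ≤ n * (C2 * ((1 + h) * DL) + C2 * ε * S) := by
      calc S ≤ ∑ j : Fin n, (C2 * ((1 + h) * DL) + C2 * ε * S) :=
            Finset.sum_le_sum (fun j _ => h1 j)
        _ = _ := by
            rw [Finset.sum_const, Finset.card_univ, Fintype.card_fin, nsmul_eq_mul]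
    have h3 : S ≤ 2 * (n * C2) * ((1 + h) * DL) := by nlinarith
    intro i
    exact (Finset.single_le_sum (f := fun j => logHeight (TH954.crd (P j)))
      (fun j _ => logHeight_nonneg _) (Finset.mem_univ i)).trans h3

end Pool.Agent.Y213.TM
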