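import Pool.Agent.Y213.TM.Loc
import Pool.Agent.Y20.VP.Zeros

/-!
# A form with many zeros on a translate of an elliptic curve vanishes there
-/

set_option autoImplicit false
set_option linter.unusedSectionVars false

open MvPolynomial WeierstrassCurve Pool.Agent.TH942 Pool.Agent.TH954 Pool.Agent.TH954.V

namespace Pool.Agent.Y213.TM

section sec

variable {K L : Type} [Field K] [Field L] [Algebra K L]

/-- the form `C` with the first vector replaced by `u` -/
noncomputable def secP (C : MvPolynomial (Fin 2 × Fin 3) K) (u : Fin 3 → L) :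
    MvPolynomial (Fin 3) L :=
  aeval (fun p : Fin 2 × Fin 3 => if p.1 = 0 then MvPolynomial.C (u p.2) else X p.2) C

lemma eval_secP (C : MvPolynomial (Fin 2 × Fin 3) K) (u v : Fin 3 → L) :
    eval v (secP C u) = evc C ![u, v] := by
  unfold secP evc
  rw [aeval_def, aeval_def, hom_eval₂]
  congr 1
  · ext x
    rw [RingHom.comp_apply, IsScalarTower.algebraMap_apply K L (MvPolynomial (Fin 3) L),
      algebraMap_eq, eval_C]
  · funext p
    rcases p with ⟨i, e⟩
    fin_cases i
    · simp
    · simp

lemma secP_hom {C : MvPolynomial (Fin 2 × Fin 3) K} {D : ℕ} (hC : MultiHom (fun _ => D) C)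
    (u : Fin 3 → L) : (secP C u).IsHomogeneous D := by
  unfold secP
  rw [aeval_def, eval₂_eq']
  refine IsHomogeneous.sum _ _ _ (fun m hm => ?_)
  have h1 : algebraMap K (MvPolynomial (Fin 3) L) (coeff m C) =
      MvPolynomial.C (algebraMap K L (coeff m C)) := rfl
  rw [h1, Fintype.prod_prod_type, Fin.prod_univ_two]
  have h2 : (∏ e : Fin 3, (if ((0 : Fin 2), e).1 = 0 then MvPolynomial.C (u ((0 : Fin 2), e).2)
      else (X ((0 : Fin 2), e).2 : MvPolynomial (Fin 3) L)) ^ m ((0 : Fin 2), e)).IsHomogeneous
      0 := by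
    have : (0 : ℕ) = ∑ e : Fin 3, 0 := by simp
    rw [this]
    refine IsHomogeneous.prod _ _ _ (fun e _ => ?_)
    simp only [if_true]
    rw [← C_pow]
    exact isHomogeneous_C _ _
  have h3 : (∏ e : Fin 3, (if ((1 : Fin 2), e).1 = 0 then MvPolynomial.C (u ((1 : Fin 2), e).2)
      else (X ((1 : Fin 2), e).2 : MvPolynomial (Fin 3) L)) ^ m ((1 : Fin 2), e)).IsHomogeneous
      D := by
    have e1 : D = ∑ j, m ((1 : Fin 2), j) := (hC m hm 1).symm
    rw [e1]
    refine IsHomogeneous.prod _ _ _ (fun e _ => ?_)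
    have : ¬ ((1 : Fin 2) = 0) := by decide
    simp only [if_neg this]
    exact isHomogeneous_X_pow _ _
  have h4 := (isHomogeneous_C (Fin 3) (algebraMap K L (coeff m C))).mul (h2.mul h3)
  simpa using h4

/-- composition of `f` with homogeneous vectors -/
lemma comp_hom {n : ℕ} {d : Fin n → ℕ} {f : MvPolynomial (Fin n × Fin 3) L} (hf : MultiHom d f)
    (g : Fin n × Fin 3 → MvPolynomial (Fin 3) L) (D : Fin n → ℕ)
    (hg : ∀ p, (g p).IsHomogeneous (D p.1)) :
    (aeval g f : MvPolynomial (Fin 3) L).IsHomogeneous (∑ i, D i * d i) := by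
  rw [aeval_def, eval₂_eq']
  refine IsHomogeneous.sum _ _ _ (fun m hm => ?_)
  have h1 : algebraMap L (MvPolynomial (Fin 3) L) (coeff m f) = MvPolynomial.C (coeff m f) := rfl
  rw [h1]
  have h2 : (∏ p, g p ^ m p).IsHomogeneous (∑ i, D i * d i) := by
    have e : ∑ i, D i * d i = ∑ p : Fin n × Fin 3, D p.1 * m p := by
      rw [Fintype.sum_prod_type]
      refine Finset.sum_congr rfl (fun i _ => ?_)
      rw [← hf m hm i, Finset.mul_sum]
    rw [e]
    refine IsHomogeneous.prod _ _ _ (fun p _ => ?_)
    exact (hg p).pow (m p)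
  have h3 := (isHomogeneous_C (Fin 3) (coeff m f)).mul h2
  simpa using h3

end sec

/-- the coordinates in the order `(z, x, y)` -/
def cz {F : Type} [Field F] {W : WeierstrassCurve F} (P : W.toAffine.Point) : Fin 3 → F :=
  ![crd P 2, crd P 0, crd P 1]

lemma cz_onC {F : Type} [Field F] {a b : F} (P : SPt a b) : Pool.Agent.TH954.Y.OnC a b (cz P) := by
  match P with
  | .zero =>
    have e : cz (Affine.Point.zero : SPt a b) = ![0, 0, 1] := by
      simp [cz, TH954.crd]
    rw [e]
    refine ⟨⟨2, by simp, fun j hj => ?_⟩, ?_⟩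
    · fin_cases j
      · simp
      · simp
      · exact absurd hj (lt_irrefl _)
    · simp [Pool.Agent.TH954.X.We.eqn]
  | .some x y h =>
    have e : cz (Affine.Point.some x y h : SPt a b) = ![1, x, y] := by
      simp [cz, TH954.crd]
    have q1 := sw_eqn.mp h.1
    rw [e]
    refine ⟨⟨0, by simp, fun j hj => absurd hj (by simp)⟩, ?_⟩
    simp [Pool.Agent.TH954.X.We.eqn]
    linear_combination q1

lemma cz_inj {F : Type} [Field F] {a b : F} : Function.Injective (cz (F := F) (W := sw a b)) := by
  intro P Q h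
  have h0 : crd P 2 = crd Q 2 := congrFun h 0
  have h1 : crd P 0 = crd Q 0 := congrFun h 1
  have h2 : crd P 1 = crd Q 1 := congrFun h 2
  match P, Q with
  | .zero, .zero => rfl
  | .zero, .some x y h' => simp [TH954.crd] at h0
  | .some x y h', .zero => simp [TH954.crd] at h0
  | .some x y h', .some x' y' h'' =>
    have e1 : x = x' := h1
    have e2 : y = y' := h2
    subst e1
    subst e2
    rfl

/-- a form with many zeros on the curve vanishes at the affine points -/
lemma zeros' {F : Type} [Field F] [CharZero F] {a b : F} (hD : 4 * a ^ 3 + 27 * b ^ 2 ≠ 0)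
    {D : ℕ} {g : MvPolynomial (Fin 3) F} (hg : g.IsHomogeneous D) (S : Finset (SPt a b))
    (hS : ∀ P ∈ S, eval (crd P) g = 0) (hc : 6 * D + 1 < S.card) (P : SPt a b) (hP : P ≠ 0) :
    eval (crd P) g = 0 := by
  classical
  set σ : Fin 3 → Fin 3 := ![1, 2, 0] with hσ
  have he : ∀ P : SPt a b, aeval (cz P) (rename σ g) = eval (crd P) g := by
    intro P
    rw [aeval_rename]
    have : cz P ∘ σ = crd P := by
      funext j
      fin_cases j <;> rfl
    rw [this]
    rfl
  rw [← he]
  refine Pool.Agent.Y20.VP.zeros F a b hD D (rename σ g) (hg.rename_isHomogeneous) (S.image cz) ?_ ?_ F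
    (cz P) (cz_onC P).2 ?_
  · intro v hv
    obtain ⟨Q, hQ, rfl⟩ := Finset.mem_image.mp hv
    refine ⟨cz_onC Q, ?_⟩
    rw [he]
    exact hS Q hQ
  · rw [Finset.card_image_of_injective _ cz_inj]
    exact hc
  · have : cz P 0 = 1 := crd_eq_of_ne hP
    rw [this]
    exact one_ne_zero

theorem bez {K : Type} [Field K] [CharZero K] {a b : K} (hD : 4 * a ^ 3 + 27 * b ^ 2 ≠ 0)
    (n D B : ℕ) : ∃ N : ℕ, ∀ (L : Type) [Field L] [DecidableEq L] [Algebra K L]
        (d : Fin n → ℕ) (f : MvPolynomial (Fin n × Fin 3) L), MultiHom d f → ∑ i, d i ≤ D →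
      ∀ (Q : Fin n → SPt (algebraMap K L a) (algebraMap K L b)) (c : Fin n → ℤ),
        (∀ i, |c i| ≤ B) →
      ∀ S : Finset (SPt (algebraMap K L a) (algebraMap K L b)), N < S.card →
        (∀ z ∈ S, eval (fun p => crd (Q p.1 + c p.1 • z) p.2) f = 0) →
        ∀ z : SPt (algebraMap K L a) (algebraMap K L b),
          eval (fun p => crd (Q p.1 + c p.1 • z) p.2) f = 0 := by
  classical
  obtain ⟨cc, hfam⟩ := fam' K a b hD 2
  choose D0 hD01 hD02 Fam hhom hrep using fun c : ℤ => hfam ![1, c]
  set DM : ℕ := ∑ c ∈ Finset.Icc (-(B : ℤ)) B, D0 c with hDM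
  refine ⟨6 * (DM * D) + 1, ?_⟩
  intro L _ _ _ d f hf hd Q c hc S hS hzero z
  have hchar : CharZero L := charZero_of_injective_algebraMap (algebraMap K L).injective
  have hD' : 4 * (algebraMap K L a) ^ 3 + 27 * (algebraMap K L b) ^ 2 ≠ 0 := by
    intro h0
    apply hD
    apply (algebraMap K L).injective
    rw [map_zero, ← h0]
    simp only [map_add, map_mul, map_pow, map_ofNat]
  -- the affine points, for an arbitrary translate
  have main : ∀ (Q : Fin n → SPt (algebraMap K L a) (algebraMap K L b))
      (S : Finset (SPt (algebraMap K L a) (algebraMap K L b))), 6 * (DM * D) + 1 < S.card →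
      (∀ z ∈ S, eval (fun p => crd (Q p.1 + c p.1 • z) p.2) f = 0) →
      ∀ z : SPt (algebraMap K L a) (algebraMap K L b), z ≠ 0 →
        eval (fun p => crd (Q p.1 + c p.1 • z) p.2) f = 0 := by
    intro Q S hS hzero z hz
    have hsum : ∀ (i : Fin n) (z : SPt (algebraMap K L a) (algebraMap K L b)),
        ∑ j, (![1, c i] : Fin 2 → ℤ) j • (![Q i, z] : Fin 2 → SPt (algebraMap K L a)
          (algebraMap K L b)) j = Q i + c i • z := by
      intro i z
      simp [Fin.sum_univ_two]
    have h1 : ∀ i, ∃ T ∈ Fam (c i), ∃ e, evc (T e)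
        (fun j => crd ((![Q i, z] : Fin 2 → SPt (algebraMap K L a) (algebraMap K L b)) j)) ≠ 0 :=
      fun i => (hrep (c i) L _ _ rfl rfl ![Q i, z]).2
    choose T hT e he using h1
    have hpair : ∀ (i : Fin n) (z : SPt (algebraMap K L a) (algebraMap K L b)),
        (fun j => crd ((![Q i, z] : Fin 2 → SPt (algebraMap K L a) (algebraMap K L b)) j)) =
          ![crd (Q i), crd z] := by
      intro i z
      funext j
      fin_cases j <;> rfl
    -- the composed form
    set g : MvPolynomial (Fin 3) L := aeval (fun p : Fin n × Fin 3 =>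
      secP (T p.1 p.2) (crd (Q p.1))) f with hg
    have hghom : g.IsHomogeneous (∑ i, D0 (c i) * d i) :=
      comp_hom hf _ (fun i => D0 (c i)) (fun p => secP_hom (hhom (c p.1) _ (hT p.1) p.2) _)
    have hval : ∀ z : SPt (algebraMap K L a) (algebraMap K L b), ∃ s : Fin n → L,
        (∀ i j, evc (T i j) ![crd (Q i), crd z] = s i * crd (Q i + c i • z) j) ∧
        eval (crd z) g = (∏ i, s i ^ d i) * eval (fun p => crd (Q p.1 + c p.1 • z) p.2) f := by
      intro z
      have h2 : ∀ i, ∃ s : L, (fun e => evc (T i e) (fun j => crd ((![Q i, z] :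
          Fin 2 → SPt (algebraMap K L a) (algebraMap K L b)) j))) =
          s • crd (Q i + c i • z) := by
        intro i
        have := (hrep (c i) L _ _ rfl rfl ![Q i, z]).1 _ (hT i)
        rwa [hsum] at this
      choose s hs using h2
      refine ⟨s, fun i j => ?_, ?_⟩
      · have := congrFun (hs i) j
        rw [hpair] at this
        exact this
      · have h3 : eval (crd z) g = eval (fun p : Fin n × Fin 3 =>
            eval (crd z) (secP (T p.1 p.2) (crd (Q p.1)))) f := by
          rw [hg, aeval_def, hom_eval₂]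
          have e3 : (eval (crd z)).comp (algebraMap L (MvPolynomial (Fin 3) L)) =
              RingHom.id L := by
            ext x
            rw [RingHom.comp_apply, algebraMap_eq, eval_C]
            rfl
          rw [e3]
          rfl
        rw [h3, ← hf.eval_smul s (fun p => crd (Q p.1 + c p.1 • z) p.2)]
        have e4 : (fun p : Fin n × Fin 3 => eval (crd z) (secP (T p.1 p.2) (crd (Q p.1)))) =
            fun p => s p.1 * crd (Q p.1 + c p.1 • z) p.2 := by
          funext p
          rw [eval_secP]
          have := congrFun (hs p.1) p.2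
          rw [hpair] at this
          exact this
        rw [e4]
    have hdeg : ∑ i, D0 (c i) * d i ≤ DM * D := by
      calc ∑ i, D0 (c i) * d i ≤ ∑ i, DM * d i := by
            refine Finset.sum_le_sum (fun i _ => Nat.mul_le_mul_right _ ?_)
            exact Finset.single_le_sum (f := D0) (fun _ _ => Nat.zero_le _)
              (Finset.mem_Icc.mpr (abs_le.mp (hc i)))
        _ = DM * ∑ i, d i := by rw [Finset.mul_sum]
        _ ≤ DM * D := Nat.mul_le_mul_left _ hd
    have hz1 : eval (crd z) g = 0 := by
      refine zeros' hD' hghom S (fun P hP => ?_) (by omega) z hz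
      obtain ⟨s, -, hs⟩ := hval P
      rw [hs, hzero P hP, mul_zero]
    obtain ⟨s, hs1, hs2⟩ := hval z
    rw [hs2, mul_eq_zero] at hz1
    rcases hz1 with h4 | h4
    · exfalso
      rw [Finset.prod_eq_zero_iff] at h4
      obtain ⟨i, -, hi⟩ := h4
      apply he i
      have hi0 : s i = 0 := by
        by_contra hcon
        exact pow_ne_zero _ hcon hi
      rw [hpair, hs1, hi0, zero_mul]
    · exact h4
  by_cases hz : z = 0
  · -- the origin
    obtain ⟨z1, hz1, hz10⟩ : ∃ z1 ∈ S, z1 ≠ 0 := by
      by_contra hcon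
      push Not at hcon
      have : S ⊆ {0} := fun x hx => Finset.mem_singleton.mpr (hcon x hx)
      have := Finset.card_le_card this
      rw [Finset.card_singleton] at this
      omega
    have h5 := main (fun i => Q i - c i • z1) (S.image (fun x => x + z1)) (by
      rw [Finset.card_image_of_injective _ (add_left_injective z1)]
      exact hS) (by
      intro x hx
      obtain ⟨x', hx', rfl⟩ := Finset.mem_image.mp hx
      have e5 : ∀ i, Q i - c i • z1 + c i • (x' + z1) = Q i + c i • x' := by
        intro i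
        rw [smul_add]
        abel
      simp_rw [e5]
      exact hzero x' hx') z1 hz10
    have e6 : ∀ i, Q i - c i • z1 + c i • z1 = Q i + c i • z := by
      intro i
      rw [hz, smul_zero, add_zero, sub_add_cancel]
    simp_rw [e6] at h5
    exact h5
  · exact main Q S hS hzero z hz

end Pool.Agent.Y213.TM
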