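import Pool.Agent.Y213.TM.Loc
import Pool.Agent.TH954.V.CanL

/-!
# The height inequality, uniformly over all number fields
-/

set_option autoImplicit false
set_option linter.unusedSectionVars false

open MvPolynomial WeierstrassCurve NumberField Height Pool.Agent.TH942 Pool.Agent.TH954
  Pool.Agent.TH954.V

namespace Pool.Agent.Y213.TM

/-- the height of a polynomial: the logarithmic height of the point with coordinates `1` and the
coefficients -/
noncomputable def pht {L : Type} [Field L] [NumberField L] {n : ℕ}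
    (f : MvPolynomial (Fin n × Fin 3) L) : ℝ :=
  logHeight (fun o : Option f.support => o.elim 1 (fun m => coeff m.1 f))

lemma pvec_ne {L : Type} [Field L] {n : ℕ} (f : MvPolynomial (Fin n × Fin 3) L) :
    (fun o : Option f.support => o.elim (1 : L) (fun m => coeff m.1 f)) ≠ 0 := by
  intro h
  have := congrFun h none
  simp at this

lemma FS_cfn {L : Type} [Field L] [NumberField L] {n : ℕ} (f : MvPolynomial (Fin n × Fin 3) L) :
    FS (fun w : AbsoluteValue L ℝ => Real.log (cfn w f)) := FS_sup' (pvec_ne f)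

lemma tot_cfn {L : Type} [Field L] [NumberField L] {n : ℕ} (f : MvPolynomial (Fin n × Fin 3) L) :
    tot (fun w : AbsoluteValue L ℝ => Real.log (cfn w f)) = pht f := tot_sup' (pvec_ne f)

lemma sup_two {L : Type} [Field L] (w : AbsoluteValue L ℝ) (x : L) :
    (⨆ j, w ((![x, 1] : Fin 2 → L) j)) = max 1 (w x) := by
  apply le_antisymm
  · refine ciSup_le (fun j => ?_)
    fin_cases j
    · exact le_max_right _ _
    · simp
  · refine max_le ?_ ?_
    · have := le_sup w (![x, 1] : Fin 2 → L) 1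
      simpa using this
    · exact le_sup w (![x, 1] : Fin 2 → L) 0

lemma two_ne {L : Type} [Field L] (x : L) : (![x, 1] : Fin 2 → L) ≠ 0 := by
  intro h
  have := congrFun h 1
  simp at this

lemma sup_sq {K L : Type} [Field K] [Field L] [Algebra K L] {a b : K} {A : Finset K} {M : ℕ}
    (ha : a ∈ A) (hb : b ∈ A) (hM : 3 ≤ M) (w : AbsoluteValue L ℝ) {x y : L}
    (h : y ^ 2 = x ^ 3 + algebraMap K L a * x + algebraMap K L b) :
    (⨆ j, w ((![x, y, 1] : Fin 3 → L) j)) ^ 2 ≤ kap A M 1 w * max 1 (w x) ^ 3 := by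
  classical
  set κ : ℝ := kap A M 1 w with hκ
  have hκ1 : 1 ≤ κ := one_le_kap A (by omega) 1 w
  set α : ℝ := max 1 (w x) with hα
  have hα1 : 1 ≤ α := le_max_left _ _
  have hxα : w x ≤ α := le_max_right _ _
  have hc1 := one_le_cM A w
  have h12 : α ≤ α ^ 3 := le_self_pow₀ hα1 (by norm_num)
  have h13 : (1 : ℝ) ≤ α ^ 3 := one_le_pow₀ hα1
  have h23 : α ^ 2 ≤ α ^ 3 := pow_le_pow_right₀ hα1 (by norm_num)
  have hy : w y ^ 2 ≤ κ * α ^ 3 := by
    have e1 : y ^ 2 = ∑ i : Fin 3, (![x ^ 3, algebraMap K L a * x, algebraMap K L b] :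
        Fin 3 → L) i := by
      rw [Fin.sum_univ_three]
      simp only [Matrix.cons_val_zero, Matrix.cons_val_one, Matrix.cons_val_two,
        Matrix.tail_cons, Matrix.head_cons, Matrix.cons_val]
      exact h
    rw [← w.map_pow, e1]
    have h2 := sum_le_bnd w (Finset.univ : Finset (Fin 3))
      (![x ^ 3, algebraMap K L a * x, algebraMap K L b] : Fin 3 → L) (N := M)
      (M := cM A w * α ^ 3) (by positivity) (by simpa using hM) (fun i _ => by
        fin_cases i
        · change w (x ^ 3) ≤ _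
          rw [w.map_pow]
          have := pow_le_pow_left₀ (w.nonneg _) hxα 3
          nlinarith
        · change w (algebraMap K L a * x) ≤ _
          rw [w.map_mul]
          exact mul_le_mul (le_cM A w ha) (hxα.trans h12) (w.nonneg _) (by linarith)
        · change w (algebraMap K L b) ≤ _
          have h3 := le_cM A w hb
          nlinarith)
    refine h2.trans (le_of_eq ?_)
    rw [hκ, kap_eq]
    ring
  obtain ⟨j, hj⟩ := exists_sup w (![x, y, 1] : Fin 3 → L)
  rw [← hj]
  fin_cases j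
  · change w x ^ 2 ≤ _
    have := pow_le_pow_left₀ (w.nonneg _) hxα 2
    nlinarith
  · exact hy
  · change w 1 ^ 2 ≤ _
    rw [w.map_one]
    nlinarith

theorem core {K : Type} [Field K] [NumberField K] {a b : K} (hD : 4 * a ^ 3 + 27 * b ^ 2 ≠ 0)
    (n D B : ℕ) (C1 : ℝ) (hC1 : 0 ≤ C1) : ∃ C : ℝ, 0 ≤ C ∧
      ∀ (L : Type) [Field L] [NumberField L] [DecidableEq L] [Algebra K L]
        (q : SPt (algebraMap K L a) (algebraMap K L b) → ℝ),
        (∀ P, q P ≤ logHeight (TH954.crd P) + C1 * Module.finrank ℚ L) →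
        (∀ P, logHeight (TH954.crd P) ≤ 3 / 2 * q P + C1 * Module.finrank ℚ L) →
      ∀ (d : Fin n → ℕ) (f : MvPolynomial (Fin n × Fin 3) L), MultiHom d f → ∑ i, d i ≤ D →
      ∀ (Q : Fin n → SPt (algebraMap K L a) (algebraMap K L b))
        (W : SPt (algebraMap K L a) (algebraMap K L b)) (c : Fin n → ℤ), (∀ i, |c i| ≤ B) →
        W ≠ 0 → eval (fun p => TH954.crd (Q p.1 + c p.1 • W) p.2) f = 0 →
        eval (fun p => TH954.crd (Q p.1) p.2) f ≠ 0 →
        2 / 3 * q W ≤ 2 * pht f + 3 * ∑ i, (d i : ℝ) * q (Q i) + C * Module.finrank ℚ L := by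
  classical
  obtain ⟨A, M, hM, hloc⟩ := loc hD n D B
  obtain ⟨Ck, hCk, hkap⟩ := tot_kap A hM 1
  set A3 : Finset K := {a, b} with hA3
  obtain ⟨C3, hC3, hkap3⟩ := tot_kap A3 (show 1 ≤ 3 by norm_num) 1
  refine ⟨9 * Ck + 2 * D * C1 + (C3 + 2 * C1) / 3, by positivity, ?_⟩
  intro L _ _ _ _ q hq1 hq2 d f hf hd Q W c hc hW h0 hne
  obtain ⟨FK, TK⟩ := hkap L
  obtain ⟨FK3, TK3⟩ := hkap3 L
  set DL : ℝ := (Module.finrank ℚ L : ℝ) with hDL
  have hDL0 : 0 ≤ DL := Nat.cast_nonneg _
  obtain ⟨x, y, h, rfl⟩ : ∃ (x y : L)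
      (h : (sw (algebraMap K L a) (algebraMap K L b)).toAffine.Nonsingular x y),
      W = Affine.Point.some x y h := by
    match W with
    | .zero => exact absurd rfl hW
    | .some x y h => exact ⟨x, y, h, rfl⟩
  set N : L := eval (fun p => TH954.crd (Q p.1) p.2) f with hN
  have hlocal : ∀ w : AbsoluteValue L ℝ,
      2 * Real.log (w N) + Real.log (max 1 (w x)) ≤
        9 * Real.log (kap A M 1 w) + (2 * Real.log (cfn w f) +
          ∑ i, (2 * (d i : ℝ)) * Real.log (⨆ j, w (TH954.crd (Q i) j))) := by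
    intro w
    have h1 := hloc L w d f hf hd Q x y h c hc h0
    have hwN : 0 < w N := w.pos hne
    have hm : 0 < max 1 (w x) := zero_lt_one.trans_le (le_max_left _ _)
    have hκ : 0 < kap A M 1 w := zero_lt_one.trans_le (one_le_kap A hM 1 w)
    have hcf : 0 < cfn w f := zero_lt_one.trans_le (one_le_cfn w f)
    have hsup : ∀ i, 0 < ⨆ j, w (TH954.crd (Q i) j) := fun i => sup_pos w (crd_ne_zero _)
    have h2 := Real.log_le_log (by positivity) h1
    rw [Real.log_mul (by positivity) hm.ne', Real.log_pow, Real.log_mul (by positivity)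
      (by
        refine (pow_pos (mul_pos hcf (Finset.prod_pos (fun i _ => pow_pos (hsup i) _))) _).ne'),
      Real.log_pow, Real.log_pow, Real.log_mul hcf.ne'
        (Finset.prod_pos (fun i _ => pow_pos (hsup i) _)).ne',
      Real.log_prod (fun i _ => (pow_pos (hsup i) _).ne')] at h2
    simp_rw [Real.log_pow] at h2
    have h3 : ∑ i, (2 * (d i : ℝ)) * Real.log (⨆ j, w (TH954.crd (Q i) j)) =
        2 * ∑ i, (d i : ℝ) * Real.log (⨆ j, w (TH954.crd (Q i) j)) := by
      rw [Finset.mul_sum]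
      exact Finset.sum_congr rfl (fun i _ => by ring)
    rw [h3]
    push_cast at h2
    linarith
  have FN : FS (fun w : AbsoluteValue L ℝ => Real.log (w N)) := FS_log hne
  have Fx : FS (fun w : AbsoluteValue L ℝ => Real.log (max 1 (w x))) := by
    have := FS_sup' (two_ne x)
    simp_rw [sup_two] at this
    exact this
  have Tx : tot (fun w : AbsoluteValue L ℝ => Real.log (max 1 (w x))) = logHeight ![x, 1] := by
    have := tot_sup' (two_ne x)
    simp_rw [sup_two] at this
    exact this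
  have FQ : ∀ i, FS (fun w : AbsoluteValue L ℝ => Real.log (⨆ j, w (TH954.crd (Q i) j))) :=
    fun i => FS_sup (crd_ne_zero _)
  have TQ : ∀ i, tot (fun w : AbsoluteValue L ℝ => Real.log (⨆ j, w (TH954.crd (Q i) j))) =
      logHeight (TH954.crd (Q i)) := fun i => tot_sup (crd_ne_zero _)
  have FS1 : FS (fun w : AbsoluteValue L ℝ => ∑ i, (2 * (d i : ℝ)) *
      Real.log (⨆ j, w (TH954.crd (Q i) j))) := FS_sum _ (fun i _ => FS_mul (FQ i) _)
  have hglob := tot_le (FS_add (FS_mul FN 2) Fx)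
    (FS_add (FS_mul FK 9) (FS_add (FS_mul (FS_cfn f) 2) FS1))
    (fun w => hlocal (ai w)) (fun v => hlocal (av v))
  rw [tot_add (FS_mul FN 2) Fx, tot_mul FN, tot_log hne, Tx,
    tot_add (FS_mul FK 9) (FS_add (FS_mul (FS_cfn f) 2) FS1), tot_mul FK,
    tot_add (FS_mul (FS_cfn f) 2) FS1, tot_mul (FS_cfn f), tot_cfn,
    tot_sum _ (fun i _ => FS_mul (FQ i) _)] at hglob
  have h4 : ∑ i, tot (fun w : AbsoluteValue L ℝ => (2 * (d i : ℝ)) *
      Real.log (⨆ j, w (TH954.crd (Q i) j))) ≤ 3 * ∑ i, (d i : ℝ) * q (Q i) + 2 * D * C1 * DL := by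
    calc _ = ∑ i, (2 * (d i : ℝ)) * logHeight (TH954.crd (Q i)) := by
          refine Finset.sum_congr rfl (fun i _ => ?_)
          rw [tot_mul (FQ i), TQ]
      _ ≤ ∑ i, (3 * ((d i : ℝ) * q (Q i)) + (d i : ℝ) * (2 * C1 * DL)) := by
          refine Finset.sum_le_sum (fun i _ => ?_)
          have h5 := hq2 (Q i)
          have h6 : (0 : ℝ) ≤ 2 * d i := by positivity
          nlinarith [mul_le_mul_of_nonneg_left h5 h6]
      _ = 3 * ∑ i, (d i : ℝ) * q (Q i) + (∑ i, (d i : ℝ)) * (2 * C1 * DL) := by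
          rw [Finset.sum_add_distrib, ← Finset.mul_sum, ← Finset.sum_mul]
      _ ≤ _ := by
          have h7 : (∑ i, (d i : ℝ)) ≤ D := by exact_mod_cast hd
          have h8 : 0 ≤ 2 * C1 * DL := by positivity
          nlinarith [mul_le_mul_of_nonneg_right h7 h8]
  -- the height of `x`
  have hcW : TH954.crd (Affine.Point.some x y h :
      SPt (algebraMap K L a) (algebraMap K L b)) = ![x, y, 1] := rfl
  have hlocal2 : ∀ w : AbsoluteValue L ℝ, 2 * Real.log (⨆ j, w ((![x, y, 1] : Fin 3 → L) j)) ≤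
      Real.log (kap A3 3 1 w) + 3 * Real.log (max 1 (w x)) := by
    intro w
    have h1 := sup_sq (a := a) (b := b) (A := A3) (by simp [hA3]) (by simp [hA3]) le_rfl w
      (sw_eqn.mp h.1)
    have hm : 0 < max 1 (w x) := zero_lt_one.trans_le (le_max_left _ _)
    have hκ : 0 < kap A3 3 1 w := zero_lt_one.trans_le (one_le_kap A3 (by norm_num) 1 w)
    have hs : 0 < ⨆ j, w ((![x, y, 1] : Fin 3 → L) j) := by
      rw [← hcW]
      exact sup_pos w (crd_ne_zero _)
    have h2 := Real.log_le_log (by positivity) h1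
    rw [Real.log_pow, Real.log_mul hκ.ne' (by positivity), Real.log_pow] at h2
    push_cast at h2
    exact h2
  have FW : FS (fun w : AbsoluteValue L ℝ => Real.log (⨆ j, w ((![x, y, 1] : Fin 3 → L) j))) := by
    rw [← hcW]
    exact FS_sup (crd_ne_zero _)
  have TW : tot (fun w : AbsoluteValue L ℝ => Real.log (⨆ j, w ((![x, y, 1] : Fin 3 → L) j))) =
      logHeight (TH954.crd (Affine.Point.some x y h :
      SPt (algebraMap K L a) (algebraMap K L b))) := by
    rw [← hcW]
    exact tot_sup (crd_ne_zero _)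
  have hglob2 := tot_le (FS_mul FW 2) (FS_add FK3 (FS_mul Fx 3))
    (fun w => hlocal2 (ai w)) (fun v => hlocal2 (av v))
  rw [tot_mul FW, TW, tot_add FK3 (FS_mul Fx 3), tot_mul Fx, Tx] at hglob2
  have h9 := hq1 (Affine.Point.some x y h)
  nlinarith

end Pool.Agent.Y213.TM
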