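import Pool.Agent.Y213.TM.Lift

/-!
# A point of infinite order and of small height over an extension of any number field
-/

set_option autoImplicit false
set_option linter.unusedSectionVars false

open WeierstrassCurve NumberField Height Pool.Agent.TH942 Pool.Agent.TH954
  Pool.Agent.TH954.V Polynomial

namespace Pool.Agent.Y213.TM

theorem crd_le {K : Type} [Field K] [NumberField K] (a b : K) : ∃ C3 : ℝ, 0 ≤ C3 ∧
    ∀ (L : Type) [Field L] [NumberField L] [Algebra K L] (x y : L)
      (h : (sw (algebraMap K L a) (algebraMap K L b)).toAffine.Nonsingular x y),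
      2 * logHeight (TH954.crd (Affine.Point.some x y h :
        SPt (algebraMap K L a) (algebraMap K L b))) ≤
        3 * logHeight ![x, 1] + C3 * Module.finrank ℚ L := by
  classical
  set A3 : Finset K := {a, b} with hA3
  obtain ⟨C3, hC3, hkap3⟩ := tot_kap A3 (show 1 ≤ 3 by norm_num) 1
  refine ⟨C3, hC3, ?_⟩
  intro L _ _ _ x y h
  obtain ⟨FK3, TK3⟩ := hkap3 L
  have Fx : FS (fun w : AbsoluteValue L ℝ => Real.log (max 1 (w x))) := by
    have := FS_sup' (two_ne x)
    simp_rw [sup_two] at this
    exact this
  have Tx : tot (fun w : AbsoluteValue L ℝ => Real.log (max 1 (w x))) = logHeight ![x, 1] := by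
    have := tot_sup' (two_ne x)
    simp_rw [sup_two] at this
    exact this
  have hcW : TH954.crd (Affine.Point.some x y h :
      SPt (algebraMap K L a) (algebraMap K L b)) = ![x, y, 1] := rfl
  have hlocal2 : ∀ w : AbsoluteValue L ℝ, 2 * Real.log (⨆ j, w ((![x, y, 1] : Fin 3 → L) j)) ≤
      Real.log (kap A3 3 1 w) + 3 * Real.log (max 1 (w x)) := by
    intro w
    have h1 := sup_sq (a := a) (b := b) (A := A3) (by simp [hA3]) (by simp [hA3]) le_rfl w
      (sw_eqn.mp h.1)
    have hm : 0 < max 1 (w x) := zero_lt_one.trans_le (le_max_left _ _)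
    have hκ : 0 < kap A3 3 1 w := zero_lt_one.trans_le (one_le_kap A3 (by norm_num) 1 w)
    have hs : 0 < ⨆ j, w ((![x, y, 1] : Fin 3 → L) j) := by
      rw [← hcW]
      exact sup_pos w (crd_ne_zero _)
    have h2 := Real.log_le_log (by positivity) h1
    rw [Real.log_pow, Real.log_mul hκ.ne' (by positivity), Real.log_pow] at h2
    push_cast at h2
    exact h2
  have FW : FS (fun w : AbsoluteValue L ℝ => Real.log (⨆ j, w ((![x, y, 1] : Fin 3 → L) j))) := by
    rw [← hcW]
    exact FS_sup (crd_ne_zero _)
  have TW : tot (fun w : AbsoluteValue L ℝ => Real.log (⨆ j, w ((![x, y, 1] : Fin 3 → L) j))) =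
      logHeight (TH954.crd (Affine.Point.some x y h :
      SPt (algebraMap K L a) (algebraMap K L b))) := by
    rw [← hcW]
    exact tot_sup (crd_ne_zero _)
  have hglob2 := tot_le (FS_mul FW 2) (FS_add FK3 (FS_mul Fx 3))
    (fun w => hlocal2 (ai w)) (fun v => hlocal2 (av v))
  rw [tot_mul FW, TW, tot_add FK3 (FS_mul Fx 3), tot_mul Fx, Tx] at hglob2
  linarith

theorem inf_ext {K : Type} [Field K] [NumberField K] {a b : K}
    (hD : 4 * a ^ 3 + 27 * b ^ 2 ≠ 0) (C1 : ℝ) (hC1 : 0 ≤ C1) : ∃ c1 : ℝ, 0 ≤ c1 ∧
    ∀ (L : Type) [Field L] [NumberField L] [Algebra K L],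
    ∃ (L' : Type) (_ : Field L') (_ : NumberField L') (_ : DecidableEq L') (_ : Algebra L L')
      (_ : Algebra K L') (_ : IsScalarTower K L L')
      (R1 : SPt (algebraMap K L' a) (algebraMap K L' b)),
      ∀ q : SPt (algebraMap K L' a) (algebraMap K L' b) → ℝ, IsCan C1 q →
        ¬ IsOfFinAddOrder R1 ∧ q R1 ≤ c1 * Module.finrank ℚ L' := by
  classical
  obtain ⟨C3, hC3, hcrd⟩ := crd_le a b
  set B : ℝ := C1 * Module.finrank ℚ K with hB
  obtain ⟨n, hn⟩ : ∃ n : ℕ, B < logHeight₁ (n : K) := by
    by_contra hcon
    push Not at hcon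
    have hfin := NumberField.finite_setOfPred_logHeight₁_le (K := K) B
    exact Set.infinite_univ ((hfin.preimage (f := fun n : ℕ => (n : K))
      Nat.cast_injective.injOn).subset (fun n _ => hcon n))
  rw [logHeight₁_eq_logHeight] at hn
  set c : K := (n : K) ^ 3 + a * n + b with hc
  have hH0 : 0 ≤ logHeight (![(n : K), 1] : Fin 2 → K) := logHeight_nonneg _
  refine ⟨(3 * logHeight (![(n : K), 1] : Fin 2 → K) + C3) / 2 + C1, by positivity, ?_⟩
  intro L _ _ _
  set p : L[X] := X ^ 2 - Polynomial.C (algebraMap K L c) with hp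
  let L' : Type := p.SplittingField
  have : CharZero L' := charZero_of_injective_algebraMap (algebraMap L L').injective
  have hNF : NumberField L' := by
    have : FiniteDimensional L L' := inferInstanceAs (FiniteDimensional L p.SplittingField)
    let _ : Algebra ℚ L' := inferInstance
    have : FiniteDimensional ℚ L' := FiniteDimensional.trans ℚ L L'
    exact { to_charZero := inferInstance, to_finiteDimensional := this }
  have hdeg : (p.map (algebraMap L L')).degree ≠ 0 := by
    rw [degree_map, hp, degree_X_pow_sub_C (by norm_num)]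
    norm_num
  obtain ⟨y, hy⟩ := Splits.exists_eval_eq_zero (SplittingField.splits p) hdeg
  have hmap : p.map (algebraMap L L') =
      X ^ 2 - Polynomial.C (algebraMap L L' (algebraMap K L c)) := by
    simp only [p, Polynomial.map_sub, Polynomial.map_pow, map_X, map_C]
  let iK : Algebra K L' := inferInstanceAs (Algebra K p.SplittingField)
  have iT : IsScalarTower K L L' := inferInstanceAs (IsScalarTower K L p.SplittingField)
  have hy2 : y ^ 2 = algebraMap K L' c := by
    have hy' : eval y (p.map (algebraMap L L')) = 0 := hy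
    rw [hmap] at hy'
    simp only [eval_sub, eval_pow, eval_X, eval_C] at hy'
    rw [IsScalarTower.algebraMap_apply K L L']
    exact sub_eq_zero.mp hy'
  have hD' : 4 * (algebraMap K L' a) ^ 3 + 27 * (algebraMap K L' b) ^ 2 ≠ 0 := by
    intro h0
    apply hD
    apply (algebraMap K L').injective
    rw [map_zero, ← h0]
    simp only [map_add, map_mul, map_pow, map_ofNat]
  have heq : y ^ 2 = (algebraMap K L' (n : K)) ^ 3 + algebraMap K L' a * algebraMap K L' (n : K) +
      algebraMap K L' b := by
    rw [hy2, hc]
    simp only [map_add, map_mul, map_pow]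
  have hns := sw_nonsing hD' heq
  refine ⟨L', inferInstance, hNF, inferInstance, inferInstance, iK, iT,
    Affine.Point.some _ _ hns, ?_⟩
  intro q hq
  have hKL : (Module.finrank ℚ L' : ℝ) = Module.finrank ℚ K * Module.finrank K L' := by
    rw [← Module.finrank_mul_finrank ℚ K L']
    push_cast
    rfl
  have hf1 : 1 ≤ Module.finrank K L' := by
    have : FiniteDimensional K L' := Module.Finite.of_restrictScalars_finite ℚ K L'
    exact Module.finrank_pos
  have hf1' : (1 : ℝ) ≤ Module.finrank K L' := by exact_mod_cast hf1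
  have hQ1 : 1 ≤ Module.finrank ℚ K := Module.finrank_pos
  have hQ1' : (1 : ℝ) ≤ Module.finrank ℚ K := by exact_mod_cast hQ1
  have hht : logHeight (![algebraMap K L' (n : K), 1] : Fin 2 → L') =
      Module.finrank K L' * logHeight (![(n : K), 1] : Fin 2 → K) := by
    rw [← Helper259.HtExt.logHeight_ext (L := L')]
    congr 1
    funext i
    fin_cases i <;> simp
  have hlow : logHeight (![algebraMap K L' (n : K), 1] : Fin 2 → L') ≤
      logHeight (TH954.crd (Affine.Point.some _ _ hns :
        SPt (algebraMap K L' a) (algebraMap K L' b))) := by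
    have h2 : (![algebraMap K L' (n : K), 1] : Fin 2 → L') =
        (TH954.crd (Affine.Point.some _ _ hns : SPt (algebraMap K L' a) (algebraMap K L' b))) ∘
          (![0, 2] : Fin 2 → Fin 3) := by
      funext i
      fin_cases i <;> rfl
    rw [h2]
    exact logHeight_comp_le _ _
  constructor
  · intro htors
    have h0 : q (Affine.Point.some _ _ hns) = 0 := by
      have := q_add_tors hq.par (P := 0) htors
      rwa [zero_add, q_zero' hq.par] at this
    have h1 := hq.ht_le (Affine.Point.some _ _ hns)
    rw [h0, mul_zero, zero_add] at h1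
    have h2 : B * Module.finrank K L' <
        logHeight (![(n : K), 1] : Fin 2 → K) * Module.finrank K L' :=
      mul_lt_mul_of_pos_right hn (by linarith)
    have h3 : B * Module.finrank K L' = C1 * Module.finrank ℚ L' := by
      rw [hKL, hB]
      ring
    linarith
  · have h1 := hq.le_ht (Affine.Point.some _ _ hns)
    have h2 := hcrd L' _ _ hns
    rw [hht] at h2
    have h3 : (Module.finrank K L' : ℝ) * logHeight (![(n : K), 1] : Fin 2 → K) ≤
        Module.finrank ℚ L' * logHeight (![(n : K), 1] : Fin 2 → K) := by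
      refine mul_le_mul_of_nonneg_right ?_ hH0
      rw [hKL]
      nlinarith
    nlinarith

end Pool.Agent.Y213.TM
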