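import Pool.Agent.Y213.TM.Main2
import Pool.Agent.Helper259.HtExt
import Pool.Agent.TH954.LocKey

/-!
# Points over extension fields
-/

set_option autoImplicit false
set_option linter.unusedSectionVars false

open MvPolynomial WeierstrassCurve NumberField Height Pool.Agent.TH942 Pool.Agent.TH954
  Pool.Agent.TH954.V

namespace Pool.Agent.Y213.TM

lemma crd_inj {F : Type} [Field F] {a b : F} :
    Function.Injective (TH954.crd (F := F) (W := sw a b)) := by
  intro P Q h
  apply cz_inj
  unfold cz
  rw [h]

lemma lift_ex {F L : Type} [Field F] [Field L] [DecidableEq F] [DecidableEq L] [Algebra F L]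
    (a b : F) (a' b' : L) (ha : algebraMap F L a = a') (hb : algebraMap F L b = b') :
    ∃ ι : SPt a b →+ SPt a' b', ∀ P j, TH954.crd (ι P) j = algebraMap F L (TH954.crd P j) := by
  have key : (sw a b).baseChange L = sw a' b' := by
    rw [← ha, ← hb]
    ext <;> simp [sw, WeierstrassCurve.baseChange, WeierstrassCurve.map]
  have gen : ∀ W : WeierstrassCurve L, (sw a b).baseChange L = W →
      ∃ ι : SPt a b →+ W.toAffine.Point, ∀ P j,
        TH954.crd (ι P) j = algebraMap F L (TH954.crd P j) := by
    intro W hW
    subst hW
    exact ⟨locHom (L := L) (sw a b), fun P j => crd_loc (sw a b) P j⟩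
  exact gen _ key

lemma eval_lift {F L : Type} [Field F] [Field L] [Algebra F L] {a b : F} {a' b' : L}
    {n : ℕ} (P : Fin n → SPt a b) (P' : Fin n → SPt a' b')
    (h : ∀ i j, TH954.crd (P' i) j = algebraMap F L (TH954.crd (P i) j))
    (f : MvPolynomial (Fin n × Fin 3) F) :
    eval (fun p => TH954.crd (P' p.1) p.2) (map (algebraMap F L) f) =
      algebraMap F L (eval (fun p => TH954.crd (P p.1) p.2) f) := by
  have : (fun p : Fin n × Fin 3 => TH954.crd (P' p.1) p.2) =
      fun p => algebraMap F L (TH954.crd (P p.1) p.2) := by
    funext p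
    exact h _ _
  rw [this, eval_map]
  exact (eval₂_comp_left (algebraMap F L) (RingHom.id F) _ f).symm

lemma multiHom_map {F L : Type} [Field F] [Field L] [Algebra F L] {n : ℕ} {d : Fin n → ℕ}
    {f : MvPolynomial (Fin n × Fin 3) F} (hf : MultiHom d f) :
    MultiHom d (map (algebraMap F L) f) := by
  intro m hm i
  exact hf m (support_map_subset _ _ hm) i

lemma pht_map {F L : Type} [Field F] [NumberField F] [Field L] [NumberField L] [Algebra F L]
    {n : ℕ} (f : MvPolynomial (Fin n × Fin 3) F) :
    pht (map (algebraMap F L) f) ≤ Module.finrank F L * pht f := by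
  unfold pht
  rw [← Helper259.HtExt.logHeight_ext (L := L)]
  have h : (fun o : Option (map (algebraMap F L) f).support =>
      o.elim (1 : L) (fun m => coeff m.1 (map (algebraMap F L) f))) =
      (fun o : Option f.support => algebraMap F L (o.elim (1 : F) (fun m => coeff m.1 f))) ∘
        (fun o : Option (map (algebraMap F L) f).support =>
          o.map (fun m => (⟨m.1, support_map_subset _ _ m.2⟩ : f.support))) := by
    funext o
    cases o with
    | none => simp
    | some m => simp [coeff_map]
  rw [h]
  exact logHeight_comp_le _ _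

end Pool.Agent.Y213.TM
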