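import Pool.Agent.TH954.V.GlobL
import Pool.Agent.TH954.V.TotL

/-!
# Lipschitz estimates for polynomials and absolute values
-/

set_option autoImplicit false
set_option linter.unusedSectionVars false

open MvPolynomial WeierstrassCurve Pool.Agent.TH942 Pool.Agent.TH954 Pool.Agent.TH954.V

namespace Pool.Agent.Y213.TM

variable {L : Type} [Field L]

open Classical in
/-- `m` for archimedean absolute values, `1` for the others -/
noncomputable def bnd (w : AbsoluteValue L ℝ) (m : ℕ) : ℝ := if Ult w then 1 else (m : ℝ)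

lemma one_le_bnd (w : AbsoluteValue L ℝ) {m : ℕ} (hm : 1 ≤ m) : 1 ≤ bnd w m := by
  unfold bnd
  split_ifs
  · exact le_rfl
  · exact_mod_cast hm

lemma bnd_mono (w : AbsoluteValue L ℝ) {m m' : ℕ} (h : m ≤ m') : bnd w m ≤ bnd w m' := by
  unfold bnd
  split_ifs
  · exact le_rfl
  · exact_mod_cast h

lemma bnd_le_kap {K : Type} [Field K] [Algebra K L] (w : AbsoluteValue L ℝ) (A : Finset K)
    {m M : ℕ} (h : m ≤ M) : bnd w m ≤ kap A M 1 w := by
  refine (bnd_mono w h).trans ?_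
  unfold bnd kap
  rw [pow_one]
  refine le_mul_of_one_le_right ?_ (one_le_cM A w)
  split_ifs
  · exact zero_le_one
  · exact Nat.cast_nonneg _

lemma kap_eq {K : Type} [Field K] [Algebra K L] (w : AbsoluteValue L ℝ) (A : Finset K) (M : ℕ) :
    kap A M 1 w = bnd w M * cM A w := by
  unfold bnd kap
  rw [pow_one]

/-- products of small factors -/
lemma sub_pow_arch (w : AbsoluteValue L ℝ) {x y : L} {ε : ℝ} (hx : w x ≤ 2) (hy : w y ≤ 2)
    (h : w (x - y) ≤ ε) (k : ℕ) : w (x ^ k - y ^ k) ≤ k * 2 ^ k * ε := by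
  have hε : 0 ≤ ε := (w.nonneg _).trans h
  induction k with
  | zero => simp
  | succ k ih =>
    have e : x ^ (k + 1) - y ^ (k + 1) = x * (x ^ k - y ^ k) + y ^ k * (x - y) := by ring
    rw [e]
    refine (w.add_le _ _).trans ?_
    rw [w.map_mul, w.map_mul, w.map_pow]
    have h1 : w x * w (x ^ k - y ^ k) ≤ 2 * (k * 2 ^ k * ε) :=
      mul_le_mul hx ih (w.nonneg _) (by norm_num)
    have h2 : w y ^ k * w (x - y) ≤ 2 ^ k * ε :=
      mul_le_mul (pow_le_pow_left₀ (w.nonneg _) hy k) h (w.nonneg _) (by positivity)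
    have h3 : (2 : ℝ) ^ k * ε ≤ 2 * (2 ^ k * ε) := by nlinarith [mul_nonneg (pow_nonneg (zero_le_two (α := ℝ)) k) hε]
    push_cast
    rw [pow_succ]
    nlinarith

lemma prod_sub_arch (w : AbsoluteValue L ℝ) {ι : Type} (s : Finset ι) (m : ι → ℕ) {x y : ι → L}
    {ε : ℝ} (hε : 0 ≤ ε) (hx : ∀ i, w (x i) ≤ 2) (hy : ∀ i, w (y i) ≤ 2)
    (h : ∀ i, w (x i - y i) ≤ ε) :
    w (∏ i ∈ s, x i ^ m i - ∏ i ∈ s, y i ^ m i) ≤ (∑ i ∈ s, m i : ℕ) * 2 ^ (∑ i ∈ s, m i) * ε := by
  classical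
  induction s using Finset.induction_on with
  | empty => simp
  | insert a s ha ih =>
    rw [Finset.prod_insert ha, Finset.prod_insert ha, Finset.sum_insert ha]
    set X := ∏ i ∈ s, x i ^ m i with hX
    set Y := ∏ i ∈ s, y i ^ m i with hY
    set S := ∑ i ∈ s, m i with hS
    have e : x a ^ m a * X - y a ^ m a * Y = x a ^ m a * (X - Y) + Y * (x a ^ m a - y a ^ m a) := by
      ring
    rw [e]
    refine (w.add_le _ _).trans ?_
    rw [w.map_mul, w.map_mul]
    have hYle : w Y ≤ 2 ^ S := by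
      rw [hY, w.map_prod, hS, ← Finset.prod_pow_eq_pow_sum]
      refine Finset.prod_le_prod (fun _ _ => w.nonneg _) (fun i _ => ?_)
      rw [w.map_pow]
      exact pow_le_pow_left₀ (w.nonneg _) (hy i) _
    have h1 : w (x a ^ m a) * w (X - Y) ≤ 2 ^ m a * ((S : ℝ) * 2 ^ S * ε) := by
      rw [w.map_pow]
      exact mul_le_mul (pow_le_pow_left₀ (w.nonneg _) (hx a) _) ih (w.nonneg _) (by positivity)
    have h2 : w Y * w (x a ^ m a - y a ^ m a) ≤ 2 ^ S * ((m a : ℝ) * 2 ^ m a * ε) :=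
      mul_le_mul hYle (sub_pow_arch w (hx a) (hy a) (h a) (m a)) (w.nonneg _) (by positivity)
    push_cast
    rw [pow_add]
    calc _ ≤ 2 ^ m a * ((S : ℝ) * 2 ^ S * ε) + 2 ^ S * ((m a : ℝ) * 2 ^ m a * ε) := add_le_add h1 h2
      _ = _ := by ring

lemma ult_mul {w : AbsoluteValue L ℝ} {x y : L} {ε : ℝ} (hx : w x ≤ 1) (hy : w y ≤ ε) :
    w (x * y) ≤ ε := by
  rw [w.map_mul]
  have h1 := mul_le_mul hx hy (w.nonneg _) zero_le_one
  linarith

lemma sub_pow_ult {w : AbsoluteValue L ℝ} (hw : Ult w) {x y : L} {ε : ℝ} (hx : w x ≤ 1)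
    (hy : w y ≤ 1) (h : w (x - y) ≤ ε) (k : ℕ) : w (x ^ k - y ^ k) ≤ ε := by
  have hε : 0 ≤ ε := (w.nonneg _).trans h
  induction k with
  | zero => simpa using hε
  | succ k ih =>
    have e : x ^ (k + 1) - y ^ (k + 1) = x * (x ^ k - y ^ k) + y ^ k * (x - y) := by ring
    rw [e]
    refine (hw _ _).trans (max_le (ult_mul hx ih) (ult_mul ?_ h))
    rw [w.map_pow]
    exact pow_le_one₀ (w.nonneg _) hy

lemma prod_sub_ult {w : AbsoluteValue L ℝ} (hw : Ult w) {ι : Type} (s : Finset ι) (m : ι → ℕ)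
    {x y : ι → L} {ε : ℝ} (hε : 0 ≤ ε) (hx : ∀ i, w (x i) ≤ 1) (hy : ∀ i, w (y i) ≤ 1)
    (h : ∀ i, w (x i - y i) ≤ ε) :
    w (∏ i ∈ s, x i ^ m i - ∏ i ∈ s, y i ^ m i) ≤ ε := by
  classical
  induction s using Finset.induction_on with
  | empty => simpa using hε
  | insert a s ha ih =>
    rw [Finset.prod_insert ha, Finset.prod_insert ha]
    set X := ∏ i ∈ s, x i ^ m i with hX
    set Y := ∏ i ∈ s, y i ^ m i with hY
    have e : x a ^ m a * X - y a ^ m a * Y = x a ^ m a * (X - Y) + Y * (x a ^ m a - y a ^ m a) := by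
      ring
    rw [e]
    refine (hw _ _).trans (max_le (ult_mul ?_ ih) (ult_mul ?_ (sub_pow_ult hw (hx a) (hy a) (h a) _)))
    · rw [w.map_pow]
      exact pow_le_one₀ (w.nonneg _) (hx a)
    · rw [hY, w.map_prod]
      refine Finset.prod_le_one (fun _ _ => w.nonneg _) (fun i _ => ?_)
      rw [w.map_pow]
      exact pow_le_one₀ (w.nonneg _) (hy i)

lemma ult_sum_le {w : AbsoluteValue L ℝ} (hw : Ult w) {ι : Type} (s : Finset ι) (g : ι → L) {M : ℝ}
    (hM : 0 ≤ M) (h : ∀ i ∈ s, w (g i) ≤ M) : w (∑ i ∈ s, g i) ≤ M := by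
  classical
  induction s using Finset.induction_on with
  | empty => simpa using hM
  | insert a s ha ih =>
    rw [Finset.sum_insert ha]
    exact (hw _ _).trans (max_le (h a (Finset.mem_insert_self _ _))
      (ih (fun i hi => h i (Finset.mem_insert_of_mem hi))))

lemma sum_le_card {w : AbsoluteValue L ℝ} {ι : Type} (s : Finset ι) (g : ι → L) {M : ℝ}
    (h : ∀ i ∈ s, w (g i) ≤ M) : w (∑ i ∈ s, g i) ≤ s.card * M := by
  refine (w.sum_le _ _).trans ((Finset.sum_le_sum h).trans ?_)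
  rw [Finset.sum_const, nsmul_eq_mul]

/-- a sum of `N` terms -/
lemma sum_le_bnd (w : AbsoluteValue L ℝ) {ι : Type} (s : Finset ι) (g : ι → L) {M : ℝ} {N : ℕ}
    (hM : 0 ≤ M) (hN : s.card ≤ N) (h : ∀ i ∈ s, w (g i) ≤ M) :
    w (∑ i ∈ s, g i) ≤ bnd w N * M := by
  unfold bnd
  split_ifs with hw
  · rw [one_mul]
    exact ult_sum_le hw s g hM h
  · refine (sum_le_card s g h).trans (mul_le_mul_of_nonneg_right ?_ hM)
    exact_mod_cast hN

/-- the number of monomials -/
noncomputable def nmon (n D : ℕ) : ℕ :=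
  (Finset.univ.image (fun g : Fin n × Fin 3 → Fin (D + 1) =>
    Finsupp.equivFunOnFinite.symm (fun p => (g p : ℕ)))).card

lemma card_support {n D : ℕ} {d : Fin n → ℕ} {f : MvPolynomial (Fin n × Fin 3) L}
    (hf : MultiHom d f) (hd : ∑ i, d i ≤ D) : f.support.card ≤ nmon n D := by
  classical
  refine Finset.card_le_card (fun m hm => ?_)
  rw [Finset.mem_image]
  have hle : ∀ p, m p ≤ D := by
    intro p
    have h1 := hf m hm p.1
    have h2 : m (p.1, p.2) ≤ ∑ j, m (p.1, j) :=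
      Finset.single_le_sum (f := fun j => m (p.1, j)) (fun _ _ => Nat.zero_le _)
        (Finset.mem_univ p.2)
    have h3 : d p.1 ≤ ∑ i, d i :=
      Finset.single_le_sum (f := d) (fun _ _ => Nat.zero_le _) (Finset.mem_univ p.1)
    have h4 : m p = m (p.1, p.2) := rfl
    omega
  refine ⟨fun p => ⟨m p, Nat.lt_succ_of_le (hle p)⟩, Finset.mem_univ _, ?_⟩
  ext p
  simp

lemma deg_support {n : ℕ} {d : Fin n → ℕ} {f : MvPolynomial (Fin n × Fin 3) L}
    (hf : MultiHom d f) {m : Fin n × Fin 3 →₀ ℕ} (hm : m ∈ f.support) :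
    ∑ p, m p = ∑ i, d i := by
  rw [Fintype.sum_prod_type]
  exact Finset.sum_congr rfl (fun i _ => hf m hm i)

/-- the maximum of `1` and the absolute values of the coefficients -/
noncomputable def cfn {n : ℕ} (w : AbsoluteValue L ℝ) (f : MvPolynomial (Fin n × Fin 3) L) : ℝ :=
  ⨆ o : Option f.support, w (o.elim 1 (fun m => coeff m.1 f))

lemma one_le_cfn {n : ℕ} (w : AbsoluteValue L ℝ) (f : MvPolynomial (Fin n × Fin 3) L) :
    1 ≤ cfn w f := by
  have h1 : w ((none : Option f.support).elim 1 (fun m => coeff m.1 f)) = 1 := w.map_one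
  rw [← h1]
  exact le_ciSup (f := fun o : Option f.support => w (o.elim 1 (fun m => coeff m.1 f)))
    (Set.finite_range _).bddAbove none

lemma coeff_le_cfn {n : ℕ} (w : AbsoluteValue L ℝ) (f : MvPolynomial (Fin n × Fin 3) L)
    (m : Fin n × Fin 3 →₀ ℕ) : w (coeff m f) ≤ cfn w f := by
  by_cases hm : m ∈ f.support
  · exact le_ciSup (f := fun o : Option f.support => w (o.elim 1 (fun m => coeff m.1 f)))
      (Set.finite_range _).bddAbove (some ⟨m, hm⟩)
  · rw [notMem_support_iff.mp hm, w.map_zero]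
    exact zero_le_one.trans (one_le_cfn w f)

/-- trivial bound -/
lemma eval_le {n D : ℕ} {d : Fin n → ℕ} (w : AbsoluteValue L ℝ)
    {f : MvPolynomial (Fin n × Fin 3) L} (hf : MultiHom d f) (hd : ∑ i, d i ≤ D)
    {u : Fin n × Fin 3 → L} (hu : ∀ p, w (u p) ≤ 1) :
    w (eval u f) ≤ bnd w (nmon n D) * cfn w f := by
  rw [eval_eq]
  refine sum_le_bnd w _ _ (zero_le_one.trans (one_le_cfn w f)) (card_support hf hd) (fun m _ => ?_)
  rw [w.map_mul]
  refine (mul_le_of_le_one_right (w.nonneg _) ?_).trans (coeff_le_cfn w f m)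
  rw [w.map_prod]
  refine Finset.prod_le_one (fun _ _ => w.nonneg _) (fun i _ => ?_)
  rw [w.map_pow]
  exact pow_le_one₀ (w.nonneg _) (hu i)

/-- Lipschitz bound -/
lemma eval_sub_le {n D : ℕ} {d : Fin n → ℕ} (w : AbsoluteValue L ℝ)
    {f : MvPolynomial (Fin n × Fin 3) L} (hf : MultiHom d f) (hd : ∑ i, d i ≤ D)
    {u v : Fin n × Fin 3 → L} {ε : ℝ} (hε : 0 ≤ ε) (hε1 : ε ≤ 1) (hu : ∀ p, w (u p) ≤ 1)
    (h : ∀ p, w (v p - u p) ≤ ε) :
    w (eval v f - eval u f) ≤ bnd w (nmon n D * (D * 2 ^ D)) * (cfn w f * ε) := by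
  rw [eval_eq, eval_eq, ← Finset.sum_sub_distrib]
  have hc0 : 0 ≤ cfn w f := zero_le_one.trans (one_le_cfn w f)
  by_cases hw : Ult w
  · have hv : ∀ p, w (v p) ≤ 1 := by
      intro p
      have h1 := hw (v p - u p) (u p)
      rw [sub_add_cancel] at h1
      exact h1.trans (max_le ((h p).trans hε1) (hu p))
    have h1 : bnd w (nmon n D * (D * 2 ^ D)) = 1 := by
      unfold bnd
      rw [if_pos hw]
    rw [h1, one_mul]
    refine ult_sum_le hw _ _ (mul_nonneg hc0 hε) (fun m _ => ?_)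
    rw [← mul_sub, w.map_mul]
    exact mul_le_mul (coeff_le_cfn w f m) (prod_sub_ult hw _ _ hε hv hu h) (w.nonneg _) hc0
  · have hv : ∀ p, w (v p) ≤ 2 := by
      intro p
      have h1 := w.add_le (v p - u p) (u p)
      rw [sub_add_cancel] at h1
      linarith [h p, hu p]
    have h1 : bnd w (nmon n D * (D * 2 ^ D)) = (nmon n D : ℝ) * (D * 2 ^ D) := by
      unfold bnd
      rw [if_neg hw]
      push_cast
      ring
    rw [h1]
    have h2 : ∀ m ∈ f.support, w (coeff m f * ∏ i ∈ m.support, v i ^ m i -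
        coeff m f * ∏ i ∈ m.support, u i ^ m i) ≤ cfn w f * ((D : ℝ) * 2 ^ D * ε) := by
      intro m hm
      rw [← mul_sub, w.map_mul]
      refine mul_le_mul (coeff_le_cfn w f m) ?_ (w.nonneg _) hc0
      refine (prod_sub_arch w _ _ hε hv (fun p => (hu p).trans one_le_two) h).trans ?_
      have h3 : ∑ i ∈ m.support, m i ≤ D := by
        have h4 : ∑ i ∈ m.support, m i = ∑ p, m p :=
          Finset.sum_subset (Finset.subset_univ _) (fun p _ hp => Finsupp.notMem_support_iff.mp hp)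
        rw [h4, deg_support hf hm]
        exact hd
      refine mul_le_mul_of_nonneg_right ?_ hε
      refine mul_le_mul (by exact_mod_cast h3) (pow_le_pow_right₀ one_le_two h3) (by positivity)
        (Nat.cast_nonneg _)
    refine (sum_le_card _ _ h2).trans ?_
    have h5 : (f.support.card : ℝ) ≤ nmon n D := by exact_mod_cast card_support hf hd
    calc _ ≤ (nmon n D : ℝ) * (cfn w f * ((D : ℝ) * 2 ^ D * ε)) :=
          mul_le_mul_of_nonneg_right h5 (by positivity)
      _ = _ := by ring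

end Pool.Agent.Y213.TM
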