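import Pool.Agent.Y213.TM.Near

/-!
# The value of a form at a point near a zero: all absolute values
-/

set_option autoImplicit false
set_option linter.unusedSectionVars false

open MvPolynomial WeierstrassCurve Pool.Agent.TH942 Pool.Agent.TH954 Pool.Agent.TH954.V

namespace Pool.Agent.Y213.TM

lemma del_sq {K L : Type} [Field K] [Field L] [Algebra K L] {a b : K} {A : Finset K} {M : ℕ}
    (ha : a ∈ A) (hb : b ∈ A) (hM : 3 ≤ M) (w : AbsoluteValue L ℝ) {x y : L}
    (h : y ^ 2 = x ^ 3 + algebraMap K L a * x + algebraMap K L b) :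
    del w x y ^ 2 * max 1 (w x) ≤ kap A M 1 w := by
  classical
  set κ : ℝ := kap A M 1 w with hκ
  have hκ1 : 1 ≤ κ := one_le_kap A (by omega) 1 w
  set S : ℝ := ⨆ j, w ((![x, y, 1] : Fin 3 → L) j) with hS
  have hx : w x ≤ S := le_sup w (![x, y, 1] : Fin 3 → L) 0
  have hy : w y ≤ S := le_sup w (![x, y, 1] : Fin 3 → L) 1
  have h1 : (1 : ℝ) ≤ S := by
    have := le_sup w (![x, y, 1] : Fin 3 → L) 2
    simpa using this
  have hS0 : 0 < S := by linarith
  have hc1 := one_le_cM A w
  have hxS : S ≤ S ^ 2 := le_self_pow₀ h1 (by norm_num)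
  have h1S : (1 : ℝ) ≤ S ^ 2 := one_le_pow₀ h1
  have hcube : w x ^ 3 ≤ κ * S ^ 2 := by
    have e1 : x ^ 3 = ∑ i : Fin 3, (![y ^ 2, -(algebraMap K L a * x), -(algebraMap K L b)] :
        Fin 3 → L) i := by
      rw [Fin.sum_univ_three]
      simp only [Matrix.cons_val_zero, Matrix.cons_val_one, Matrix.cons_val_two,
        Matrix.tail_cons, Matrix.head_cons, Matrix.cons_val]
      linear_combination -h
    rw [← w.map_pow, e1]
    have h2 := sum_le_bnd w (Finset.univ : Finset (Fin 3))
      (![y ^ 2, -(algebraMap K L a * x), -(algebraMap K L b)] : Fin 3 → L) (N := M)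
      (M := cM A w * S ^ 2) (by positivity) (by simpa using hM) (fun i _ => by
        fin_cases i
        · change w (y ^ 2) ≤ _
          rw [w.map_pow]
          have := pow_le_pow_left₀ (w.nonneg _) hy 2
          nlinarith [sq_nonneg S]
        · change w (-(algebraMap K L a * x)) ≤ _
          rw [w.map_neg, w.map_mul]
          have h3 := le_cM A w ha
          exact mul_le_mul h3 (hx.trans hxS) (w.nonneg _) (by linarith)
        · change w (-(algebraMap K L b)) ≤ _
          rw [w.map_neg]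
          have h3 := le_cM A w hb
          nlinarith)
    refine h2.trans (le_of_eq ?_)
    rw [hκ, kap_eq]
    ring
  have hm : max 1 (w x) ^ 3 ≤ κ * S ^ 2 := by
    rcases le_total 1 (w x) with h3 | h3
    · rw [max_eq_right h3]
      exact hcube
    · rw [max_eq_left h3]
      nlinarith
  unfold del
  rw [div_pow, div_mul_eq_mul_div, div_le_iff₀ (by positivity)]
  calc max 1 (w x) ^ 2 * max 1 (w x) = max 1 (w x) ^ 3 := by ring
    _ ≤ κ * S ^ 2 := hm

theorem loc {K : Type} [Field K] [CharZero K] {a b : K} (hD : 4 * a ^ 3 + 27 * b ^ 2 ≠ 0)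
    (n D B : ℕ) : ∃ (A : Finset K) (M : ℕ), 1 ≤ M ∧
      ∀ (L : Type) [Field L] [DecidableEq L] [Algebra K L] (w : AbsoluteValue L ℝ)
        (d : Fin n → ℕ) (f : MvPolynomial (Fin n × Fin 3) L), MultiHom d f → ∑ i, d i ≤ D →
      ∀ (Q : Fin n → SPt (algebraMap K L a) (algebraMap K L b)) (x y : L)
        (h : (sw (algebraMap K L a) (algebraMap K L b)).toAffine.Nonsingular x y)
        (c : Fin n → ℤ), (∀ i, |c i| ≤ B) →
        eval (fun p => crd (Q p.1 + c p.1 • (Affine.Point.some x y h :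
            SPt (algebraMap K L a) (algebraMap K L b))) p.2) f = 0 →
        w (eval (fun p => crd (Q p.1) p.2) f) ^ 2 * max 1 (w x) ≤
          kap A M 1 w ^ 9 * (cfn w f * ∏ i, (⨆ j, w (crd (Q i) j)) ^ d i) ^ 2 := by
  classical
  choose A0 M0 hM0 hA0 using fun c : ℤ => near_c hD c
  set A : Finset K := ((Finset.Icc (-(B : ℤ)) B).biUnion A0) ∪ {a, b} with hA
  set M : ℕ := (∑ c ∈ Finset.Icc (-(B : ℤ)) B, M0 c) + 3 + nmon n D +
    nmon n D * (D * 2 ^ D) with hM
  refine ⟨A, M, by omega, ?_⟩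
  intro L _ _ _ w d f hf hd Q x y h c hc h0
  set κ : ℝ := kap A M 1 w with hκ
  have hκ1 : 1 ≤ κ := one_le_kap A (by omega) 1 w
  set θ : ℝ := bnd w 2 with hθ
  have hθ1 : 1 ≤ θ := one_le_bnd w one_le_two
  have hθκ : θ ≤ κ := bnd_le_kap w A (by omega)
  set δ : ℝ := del w x y with hδ
  have hδ0 : 0 < δ := del_pos w x y
  have hsq : δ ^ 2 * max 1 (w x) ≤ κ :=
    del_sq (a := a) (b := b) (A := A) (Finset.mem_union_right _ (by simp))
      (Finset.mem_union_right _ (by simp)) (by omega) w (sw_eqn.mp h.1)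
  have hQpos : ∀ i, 0 < ⨆ j, w (crd (Q i) j) := fun i => sup_pos w (crd_ne_zero _)
  choose j0 hj0 using fun i => exists_sup w (crd (Q i))
  have hj00 : ∀ i, crd (Q i) (j0 i) ≠ 0 := fun i => by
    rw [← w.pos_iff, hj0]
    exact hQpos i
  set P : ℝ := ∏ i, (⨆ j, w (crd (Q i) j)) ^ d i with hP
  have hP0 : 0 < P := Finset.prod_pos (fun i _ => pow_pos (hQpos i) _)
  have hcf := one_le_cfn w f
  -- the normalised point
  set u : Fin n × Fin 3 → L := fun p => crd (Q p.1) p.2 / crd (Q p.1) (j0 p.1) with hu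
  have hu1 : ∀ p, w (u p) ≤ 1 := by
    intro p
    rw [hu]
    simp only
    rw [map_div₀, hj0, div_le_one (hQpos p.1)]
    exact le_sup w _ _
  have hfu : eval u f = (∏ i, ((crd (Q i) (j0 i))⁻¹) ^ d i) *
      eval (fun p => crd (Q p.1) p.2) f := by
    rw [← hf.eval_smul (fun i => (crd (Q i) (j0 i))⁻¹)]
    have e : u = fun p => (crd (Q p.1) (j0 p.1))⁻¹ * crd (Q p.1) p.2 := by
      funext p
      rw [hu]
      simp only
      rw [div_eq_inv_mul]
    rw [e]
  have hwfu : w (eval (fun p => crd (Q p.1) p.2) f) = w (eval u f) * P := by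
    rw [hfu, w.map_mul, w.map_prod]
    have e1 : ∏ i, w ((crd (Q i) (j0 i))⁻¹ ^ d i) = P⁻¹ := by
      rw [hP, ← Finset.prod_inv_distrib]
      refine Finset.prod_congr rfl (fun i _ => ?_)
      rw [w.map_pow, map_inv₀, hj0, inv_pow]
    rw [e1]
    field_simp
  have key : w (eval (fun p => crd (Q p.1) p.2) f) ≤ κ ^ 4 * δ * (cfn w f * P) := by
    by_cases hsmall : θ * κ ^ 2 * δ < 1
    · -- near the origin
      have hnear : ∀ i, ∃ s : L, s ≠ 0 ∧ ∀ j,
          w (s * crd (Q i + c i • (Affine.Point.some x y h :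
            SPt (algebraMap K L a) (algebraMap K L b))) j - crd (Q i) j / crd (Q i) (j0 i)) ≤
            θ * κ ^ 2 * δ := by
        intro i
        have hci : c i ∈ Finset.Icc (-(B : ℤ)) B := Finset.mem_Icc.mpr (abs_le.mp (hc i))
        refine hA0 (c i) A M ?_ ?_ L w (Q i) x y h hsmall (j0 i) (hj0 i)
        · exact (Finset.subset_biUnion_of_mem A0 hci).trans Finset.subset_union_left
        · have : M0 (c i) ≤ ∑ c ∈ Finset.Icc (-(B : ℤ)) B, M0 c :=
            Finset.single_le_sum (f := M0) (fun _ _ => Nat.zero_le _) hci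
          omega
      choose s hs0 hs using hnear
      set v : Fin n × Fin 3 → L := fun p => s p.1 * crd (Q p.1 + c p.1 • (Affine.Point.some x y h :
            SPt (algebraMap K L a) (algebraMap K L b))) p.2 with hv
      have hfv : eval v f = 0 := by
        rw [hv, hf.eval_smul s (fun p => crd (Q p.1 + c p.1 • (Affine.Point.some x y h :
            SPt (algebraMap K L a) (algebraMap K L b))) p.2), h0, mul_zero]
      have h1 := eval_sub_le w hf hd (u := u) (v := v) (ε := θ * κ ^ 2 * δ) (by positivity)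
        hsmall.le hu1 (fun p => hs p.1 p.2)
      rw [hfv, zero_sub, w.map_neg] at h1
      have h2 : bnd w (nmon n D * (D * 2 ^ D)) ≤ κ := bnd_le_kap w A (by omega)
      rw [hwfu]
      calc w (eval u f) * P ≤ κ * (cfn w f * (κ * κ ^ 2 * δ)) * P := by
            refine mul_le_mul_of_nonneg_right (h1.trans ?_) hP0.le
            refine mul_le_mul h2 (mul_le_mul_of_nonneg_left ?_ (by linarith)) (by positivity)
              (by linarith)
            exact mul_le_mul_of_nonneg_right (mul_le_mul_of_nonneg_right hθκ (by positivity)) hδ0.le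
        _ = κ ^ 4 * δ * (cfn w f * P) := by ring
    · rw [not_lt] at hsmall
      have h1 := eval_le w hf hd hu1
      have h2 : bnd w (nmon n D) ≤ κ := bnd_le_kap w A (by omega)
      rw [hwfu]
      calc w (eval u f) * P ≤ κ * cfn w f * P := by
            refine mul_le_mul_of_nonneg_right (h1.trans ?_) hP0.le
            exact mul_le_mul_of_nonneg_right h2 (by linarith)
        _ = κ * cfn w f * P * 1 := by ring
        _ ≤ κ * cfn w f * P * (κ * κ ^ 2 * δ) := by
            refine mul_le_mul_of_nonneg_left (hsmall.trans ?_) (by positivity)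
            exact mul_le_mul_of_nonneg_right (mul_le_mul_of_nonneg_right hθκ (by positivity)) hδ0.le
        _ = κ ^ 4 * δ * (cfn w f * P) := by ring
  have hm0 : 0 ≤ max 1 (w x) := zero_le_one.trans (le_max_left _ _)
  calc w (eval (fun p => crd (Q p.1) p.2) f) ^ 2 * max 1 (w x)
      ≤ (κ ^ 4 * δ * (cfn w f * P)) ^ 2 * max 1 (w x) :=
        mul_le_mul_of_nonneg_right (pow_le_pow_left₀ (w.nonneg _) key 2) hm0
    _ = κ ^ 8 * (δ ^ 2 * max 1 (w x)) * (cfn w f * P) ^ 2 := by ring
    _ ≤ κ ^ 8 * κ * (cfn w f * P) ^ 2 := by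
        refine mul_le_mul_of_nonneg_right (mul_le_mul_of_nonneg_left hsq (by positivity))
          (sq_nonneg _)
    _ = κ ^ 9 * (cfn w f * P) ^ 2 := by ring

end Pool.Agent.Y213.TM
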