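import Mathlib

/-!
# Combinatorics of sets of integer vectors with the descent property: statement
-/

set_option autoImplicit false

namespace Pool.Agent.Y213.TM

/-- the descent property: if `t` is in `T` and `t = s + k c`, where `c` is bounded, `k` is large and
`s` is small compared to `k`, then `s` is in `T` -/
def HasD (n A : ℕ) (κ : ℕ → ℕ) (k0 : ℕ) (T : Set (Fin n → ℤ)) : Prop :=
  ∀ (B : ℕ) (k : ℤ) (t s c : Fin n → ℤ), ((κ B * k0 : ℕ) : ℤ) ≤ k → (∀ i, |c i| ≤ B) →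
    (∀ i, A * |s i| ≤ k) → t = s + k • c → t ∈ T → s ∈ T

/-- a line with many consecutive points in `T` is in `T` -/
def HasB (n : ℕ) (N : ℕ → ℕ) (T : Set (Fin n → ℤ)) : Prop :=
  ∀ (B : ℕ) (s c : Fin n → ℤ), (∀ i, |c i| ≤ B) → (∀ j : ℕ, j ≤ N B → s + (j : ℤ) • c ∈ T) →
    ∀ m : ℤ, s + m • c ∈ T

/-- every element of `T` lies in a coset `s + M ℤ ^ n` contained in `T` with `M` bounded and `s`
bounded by a multiple of `k0` -/
def StComb : Prop := ∀ (n A : ℕ) (κ N : ℕ → ℕ), ∃ C B : ℕ, ∀ k0 : ℕ, 1 ≤ k0 →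
  ∀ T : Set (Fin n → ℤ), HasD n A κ k0 T → HasB n N T → ∀ t ∈ T,
    ∃ (s : Fin n → ℤ) (M : Fin n → Fin n → ℤ), (∀ i, |s i| ≤ C * k0) ∧ (∀ l i, |M l i| ≤ B) ∧
      (∃ z : Fin n → ℤ, t = s + ∑ l, z l • M l) ∧ ∀ z : Fin n → ℤ, s + ∑ l, z l • M l ∈ T

end Pool.Agent.Y213.TM
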