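import Pool.Agent.Y213.TM.Core
import Pool.Agent.Y213.TM.Bez
import Pool.Agent.Y213.TM.Stm

/-!
# The descent property and the Bezout property for points on a subvariety of a power of an
elliptic curve
-/

set_option autoImplicit false
set_option linter.unusedSectionVars false

open MvPolynomial WeierstrassCurve NumberField Height Pool.Agent.TH942 Pool.Agent.TH954
  Pool.Agent.TH954.V

namespace Pool.Agent.Y213.TM

/-- `q` is a canonical height with the constant `C` -/
structure IsCan {L : Type} [Field L] [NumberField L] [DecidableEq L] {a b : L} (C : ℝ)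
    (q : SPt a b → ℝ) : Prop where
  nonneg : ∀ P, 0 ≤ q P
  par : ∀ P Q, q (P + Q) + q (P - Q) = 2 * (q P + q Q)
  le_ht : ∀ P, q P ≤ logHeight (TH954.crd P) + C * Module.finrank ℚ L
  ht_le : ∀ P, logHeight (TH954.crd P) ≤ 3 / 2 * q P + C * Module.finrank ℚ L

lemma q_pos' {L : Type} [Field L] [NumberField L] [DecidableEq L] {a b : L} {C : ℝ}
    {q : SPt a b → ℝ} (hq : IsCan C q) {P : SPt a b} (hP : ¬ IsOfFinAddOrder P) : 0 < q P := by
  rcases (hq.nonneg P).eq_or_lt with h0 | h0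
  · exfalso
    apply hP
    have hfin := sfinite_ht (a := a) (b := b) (C * Module.finrank ℚ L)
    have hmem : ∀ n : ℕ, n • P ∈ {P : SPt a b | sht P ≤ C * Module.finrank ℚ L} := by
      intro n
      have h4 := hq.ht_le (n • P)
      rw [q_nsmul hq.par, ← h0, mul_zero, mul_zero, zero_add] at h4
      exact (sht_le _).trans h4
    have hni : ¬ Function.Injective (fun n : ℕ => n • P) := by
      intro hinj
      have : Set.Infinite (Set.range (fun n : ℕ => n • P)) := Set.infinite_range_of_injective hinj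
      exact this (hfin.subset (by rintro _ ⟨n, rfl⟩; exact hmem n))
    by_contra hc
    exact hni (injective_nsmul_iff_not_isOfFinAddOrder.mpr hc)
  · exact h0

/-- the integral vectors `t` with `t R + τ` on the closed set given by `F` -/
def TT {L : Type} [Field L] [DecidableEq L] {a b : L} {n : ℕ}
    (F : Set (MvPolynomial (Fin n × Fin 3) L)) (R : SPt a b) (τ : Fin n → SPt a b) :
    Set (Fin n → ℤ) :=
  {t | ∀ f ∈ F, eval (fun p => TH954.crd (t p.1 • R + τ p.1) p.2) f = 0}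

/-- the forms of `F` are multihomogeneous of total degree at most `D` -/
def Deg {L : Type} [Field L] {n : ℕ} (D : ℕ) (F : Set (MvPolynomial (Fin n × Fin 3) L)) : Prop :=
  ∀ f ∈ F, ∃ d : Fin n → ℕ, MultiHom d f ∧ ∑ i, d i ≤ D

theorem hasD_ex {K : Type} [Field K] [NumberField K] {a b : K} (hD : 4 * a ^ 3 + 27 * b ^ 2 ≠ 0)
    (n D : ℕ) (C1 : ℝ) (hC1 : 0 ≤ C1) : ∃ κ : ℕ → ℕ,
      ∀ (L : Type) [Field L] [NumberField L] [DecidableEq L] [Algebra K L]
        (q : SPt (algebraMap K L a) (algebraMap K L b) → ℝ), IsCan C1 q →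
      ∀ (h : ℝ), 0 ≤ h → ∀ F : Set (MvPolynomial (Fin n × Fin 3) L), Deg D F →
        (∀ f ∈ F, pht f ≤ h * Module.finrank ℚ L) →
      ∀ (R : SPt (algebraMap K L a) (algebraMap K L b))
        (τ : Fin n → SPt (algebraMap K L a) (algebraMap K L b)), ¬ IsOfFinAddOrder R →
        (∀ i, logHeight (TH954.crd (τ i)) ≤ h * Module.finrank ℚ L) → ∀ k0 : ℕ, 1 ≤ k0 →
        (1 + h) * Module.finrank ℚ L ≤ (k0 : ℝ) ^ 2 * q R →
        HasD n (5 * (D + 1)) κ k0 (TT F R τ) := by
  classical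
  choose C hC0 hC using fun B : ℕ => core hD n D B C1 hC1
  refine ⟨fun B => ⌈3 * (2 + 6 * (D : ℝ) * (1 + C1) + C B)⌉₊ + 1, ?_⟩
  intro L _ _ _ _ q hq h hh F hF hpF R τ hR hτ k0 hk0 hk B k t s c hκ hc hs ht htT f hf
  obtain ⟨d, hd, hdD⟩ := hF f hf
  by_contra hne
  set κB : ℕ := ⌈3 * (2 + 6 * (D : ℝ) * (1 + C1) + C B)⌉₊ + 1 with hκB
  have hκ1 : 1 ≤ κB := by omega
  have hκ2 : 3 * (2 + 6 * (D : ℝ) * (1 + C1) + C B) < (κB : ℝ) := by
    have := Nat.le_ceil (3 * (2 + 6 * (D : ℝ) * (1 + C1) + C B))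
    rw [hκB]
    push_cast
    linarith
  set DL : ℝ := (Module.finrank ℚ L : ℝ) with hDL
  have hDL0 : 1 ≤ DL := by
    have : 1 ≤ Module.finrank ℚ L := Module.finrank_pos
    rw [hDL]
    exact_mod_cast this
  have hκ' : ((κB * k0 : ℕ) : ℤ) ≤ k := hκ
  clear_value κB
  have hk1 : (1 : ℤ) ≤ k := by
    have : 1 ≤ κB * k0 := Nat.mul_pos hκ1 hk0
    exact le_trans (by exact_mod_cast this) hκ'
  have hW : k • R ≠ 0 := by
    intro h0
    apply hR
    rw [isOfFinAddOrder_iff_zsmul_eq_zero]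
    exact ⟨k, by omega, h0⟩
  have h1 := hC B L q hq.le_ht hq.ht_le d f hd hdD (fun i => s i • R + τ i) (k • R) c hc hW (by
    have e : ∀ i, s i • R + τ i + c i • k • R = t i • R + τ i := by
      intro i
      rw [ht]
      rw [Pi.add_apply, Pi.smul_apply, add_smul, smul_smul, smul_eq_mul, mul_comm (c i) k]
      abel
    simp_rw [e]
    exact htT f hf) hne
  have h2 : q (k • R) = (k : ℝ) ^ 2 * q R := q_zsmul hq.par k R
  have hD0 : (0 : ℝ) ≤ D := Nat.cast_nonneg _
  have hDL00 : 0 ≤ DL := zero_le_one.trans hDL0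
  have hqτ : ∀ i, q (τ i) ≤ (h + C1) * DL := by
    intro i
    have h3 := hq.le_ht (τ i)
    have h4 := hτ i
    rw [add_mul]
    linarith
  have h3 : ∀ i, q (s i • R + τ i) ≤ 2 * ((s i : ℝ) ^ 2 * q R + (h + C1) * DL) := by
    intro i
    refine (q_add_le hq.par hq.nonneg _ _).trans ?_
    rw [q_zsmul hq.par]
    have := hqτ i
    linarith
  have hqR : 0 < q R := q_pos' hq hR
  rw [h2] at h1
  have hkR : (1 : ℝ) ≤ k := by exact_mod_cast hk1
  have h4 : ∀ i, 25 * ((D : ℝ) + 1) * (s i : ℝ) ^ 2 ≤ (k : ℝ) ^ 2 := by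
    intro i
    have h5 := hs i
    have h6 : (5 * ((D : ℝ) + 1)) * |(s i : ℝ)| ≤ k := by
      have : (((5 * (D + 1) : ℕ) : ℤ) * |s i| : ℤ) ≤ k := h5
      have h7 : ((((5 * (D + 1) : ℕ) : ℤ) * |s i| : ℤ) : ℝ) ≤ (k : ℝ) := by exact_mod_cast this
      push_cast at h7
      exact h7
    have h8 : ((5 * ((D : ℝ) + 1)) * |(s i : ℝ)|) ^ 2 ≤ (k : ℝ) ^ 2 :=
      pow_le_pow_left₀ (by positivity) h6 2
    rw [mul_pow, sq_abs] at h8
    have h9 : 25 * ((D : ℝ) + 1) ≤ (5 * ((D : ℝ) + 1)) ^ 2 := by nlinarith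
    exact (mul_le_mul_of_nonneg_right h9 (sq_nonneg _)).trans h8
  have hdR : (∑ i, (d i : ℝ)) ≤ D := by exact_mod_cast hdD
  have h5 : 25 * ((D : ℝ) + 1) * ∑ i, (d i : ℝ) * ((s i : ℝ) ^ 2 * q R) ≤
      D * ((k : ℝ) ^ 2 * q R) := by
    calc 25 * ((D : ℝ) + 1) * ∑ i, (d i : ℝ) * ((s i : ℝ) ^ 2 * q R)
        = ∑ i, (d i : ℝ) * ((25 * ((D : ℝ) + 1) * (s i : ℝ) ^ 2) * q R) := by
          rw [Finset.mul_sum]
          exact Finset.sum_congr rfl (fun i _ => by ring)
      _ ≤ ∑ i, (d i : ℝ) * ((k : ℝ) ^ 2 * q R) := by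
          refine Finset.sum_le_sum (fun i _ => ?_)
          exact mul_le_mul_of_nonneg_left (mul_le_mul_of_nonneg_right (h4 i) hqR.le)
            (Nat.cast_nonneg _)
      _ = (∑ i, (d i : ℝ)) * ((k : ℝ) ^ 2 * q R) := by rw [Finset.sum_mul]
      _ ≤ D * ((k : ℝ) ^ 2 * q R) := mul_le_mul_of_nonneg_right hdR (by positivity)
  set S : ℝ := ∑ i, (d i : ℝ) * ((s i : ℝ) ^ 2 * q R) with hS
  have hS0 : 0 ≤ S := Finset.sum_nonneg (fun i _ => by positivity)
  have h6 : 25 * S ≤ (k : ℝ) ^ 2 * q R := by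
    have h7 : 0 ≤ (k : ℝ) ^ 2 * q R := by positivity
    have h8 : ((D : ℝ) + 1) * (25 * S) ≤ ((D : ℝ) + 1) * ((k : ℝ) ^ 2 * q R) := by nlinarith
    exact le_of_mul_le_mul_left h8 (by linarith)
  have h6' : ∑ i, (d i : ℝ) * q (s i • R + τ i) ≤ 2 * S + 2 * (D * ((h + C1) * DL)) := by
    calc ∑ i, (d i : ℝ) * q (s i • R + τ i)
        ≤ ∑ i, (2 * ((d i : ℝ) * ((s i : ℝ) ^ 2 * q R)) + (d i : ℝ) * (2 * ((h + C1) * DL))) := by
          refine Finset.sum_le_sum (fun i _ => ?_)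
          have := mul_le_mul_of_nonneg_left (h3 i) (Nat.cast_nonneg (α := ℝ) (d i))
          linarith
      _ = 2 * S + (∑ i, (d i : ℝ)) * (2 * ((h + C1) * DL)) := by
          rw [Finset.sum_add_distrib, ← Finset.mul_sum, ← Finset.sum_mul]
      _ ≤ _ := by
          have h7 : 0 ≤ 2 * ((h + C1) * DL) := by positivity
          have := mul_le_mul_of_nonneg_right hdR h7
          linarith
  have h7 := hpF f hf
  have h8 : (k : ℝ) ^ 2 * q R ≤ 3 * (2 + 6 * (D : ℝ) * (1 + C1) + C B) * ((1 + h) * DL) := by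
    have hCB := hC0 B
    have e1 : 0 ≤ h * DL := mul_nonneg hh hDL00
    have e2 : 0 ≤ C B * (h * DL) := mul_nonneg hCB e1
    have e3 : 0 ≤ (D : ℝ) * DL := mul_nonneg hD0 hDL00
    have e4 : 0 ≤ (D : ℝ) * C1 * (h * DL) := mul_nonneg (mul_nonneg hD0 hC1) e1
    have e5 : 0 ≤ C B * DL := mul_nonneg hCB hDL00
    have e6 : 0 ≤ (D : ℝ) * C1 * DL := mul_nonneg (mul_nonneg hD0 hC1) hDL00
    have e7 : 0 ≤ (D : ℝ) * (h * DL) := mul_nonneg hD0 e1
    have h10 : 2 / 3 * ((k : ℝ) ^ 2 * q R) ≤ 2 * (h * DL) + 3 * (2 * S + 2 * (D * ((h + C1) * DL)))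
        + C B * DL := by linarith
    have h11 : 3 * (2 + 6 * (D : ℝ) * (1 + C1) + C B) * ((1 + h) * DL) =
        6 * DL + 6 * (h * DL) + 18 * (D * DL) + 18 * (D * (h * DL)) + 18 * (D * C1 * DL) +
          18 * (D * C1 * (h * DL)) + 3 * (C B * DL) + 3 * (C B * (h * DL)) := by ring
    rw [h11]
    have h12 : (D : ℝ) * ((h + C1) * DL) = D * (h * DL) + D * C1 * DL := by ring
    rw [h12] at h10
    linarith
  have h9 : (k : ℝ) ^ 2 * q R ≤ 3 * (2 + 6 * (D : ℝ) * (1 + C1) + C B) * ((k0 : ℝ) ^ 2 * q R) :=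
    h8.trans (mul_le_mul_of_nonneg_left hk (by have := hC0 B; positivity))
  have h10 : (k : ℝ) ^ 2 ≤ 3 * (2 + 6 * (D : ℝ) * (1 + C1) + C B) * (k0 : ℝ) ^ 2 := by
    have : (k : ℝ) ^ 2 * q R ≤ (3 * (2 + 6 * (D : ℝ) * (1 + C1) + C B) * (k0 : ℝ) ^ 2) * q R := by
      rw [mul_assoc]
      exact h9
    exact le_of_mul_le_mul_right this hqR
  have h11 : (κB : ℝ) * k0 ≤ k := by
    have : (((κB * k0 : ℕ) : ℤ) : ℝ) ≤ (k : ℝ) := by exact_mod_cast hκ'
    push_cast at this
    exact this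
  have hk0' : (1 : ℝ) ≤ k0 := by exact_mod_cast hk0
  have hκ1' : (1 : ℝ) ≤ κB := by exact_mod_cast hκ1
  have h12 : ((κB : ℝ) * k0) ^ 2 ≤ (k : ℝ) ^ 2 := pow_le_pow_left₀ (by positivity) h11 2
  have h13 : (κB : ℝ) * (k0 : ℝ) ^ 2 ≤ ((κB : ℝ) * k0) ^ 2 := by
    rw [mul_pow]
    exact mul_le_mul_of_nonneg_right (by nlinarith) (sq_nonneg _)
  have h14 : 3 * (2 + 6 * (D : ℝ) * (1 + C1) + C B) * (k0 : ℝ) ^ 2 < (κB : ℝ) * (k0 : ℝ) ^ 2 :=
    mul_lt_mul_of_pos_right hκ2 (by positivity)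
  linarith

theorem hasB_ex {K : Type} [Field K] [CharZero K] {a b : K} (hD : 4 * a ^ 3 + 27 * b ^ 2 ≠ 0)
    (n D : ℕ) : ∃ N : ℕ → ℕ, ∀ (L : Type) [Field L] [DecidableEq L] [Algebra K L]
      (F : Set (MvPolynomial (Fin n × Fin 3) L)), Deg D F →
      ∀ (R : SPt (algebraMap K L a) (algebraMap K L b))
        (τ : Fin n → SPt (algebraMap K L a) (algebraMap K L b)), ¬ IsOfFinAddOrder R →
        HasB n N (TT F R τ) := by
  classical
  choose N hN using fun B : ℕ => bez hD n D B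
  refine ⟨N, ?_⟩
  intro L _ _ _ F hF R τ hR B s c hc hline m f hf
  obtain ⟨d, hd, hdD⟩ := hF f hf
  have hinj : Function.Injective (fun j : ℕ => j • R) :=
    injective_nsmul_iff_not_isOfFinAddOrder.mpr hR
  have e : ∀ (m : ℤ) (i : Fin n), (s + m • c) i • R + τ i = s i • R + τ i + c i • m • R := by
    intro m i
    rw [Pi.add_apply, Pi.smul_apply, add_smul, smul_smul, smul_eq_mul, mul_comm (c i) m]
    abel
  have h1 := hN B L d f hd hdD (fun i => s i • R + τ i) c hc
    ((Finset.range (N B + 1)).image (fun j : ℕ => j • R)) (by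
      rw [Finset.card_image_of_injective _ hinj, Finset.card_range]
      omega) (by
      intro z hz
      obtain ⟨j, hj, rfl⟩ := Finset.mem_image.mp hz
      have h2 := hline j (by
        rw [Finset.mem_range] at hj
        omega) f hf
      simp_rw [e] at h2
      simp_rw [natCast_zsmul] at h2
      exact h2) (m • R)
  simp_rw [e]
  exact h1

/-- a form with many zeros in a box vanishes on the coset -/
theorem bezM {K : Type} [Field K] [CharZero K] {a b : K} (hD : 4 * a ^ 3 + 27 * b ^ 2 ≠ 0)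
    (n D B : ℕ) : ∃ N : ℕ, ∀ (L : Type) [Field L] [DecidableEq L] [Algebra K L]
        (d : Fin n → ℕ) (f : MvPolynomial (Fin n × Fin 3) L), MultiHom d f → ∑ i, d i ≤ D →
      ∀ (Q : Fin n → SPt (algebraMap K L a) (algebraMap K L b)) (m : ℕ)
        (M : Fin m → Fin n → ℤ), (∀ l i, |M l i| ≤ B) →
      ∀ S : Finset (SPt (algebraMap K L a) (algebraMap K L b)), N < S.card →
        (∀ z : Fin m → SPt (algebraMap K L a) (algebraMap K L b), (∀ l, z l ∈ S) →
          eval (fun p => TH954.crd (Q p.1 + ∑ l, M l p.1 • z l) p.2) f = 0) →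
        ∀ z : Fin m → SPt (algebraMap K L a) (algebraMap K L b),
          eval (fun p => TH954.crd (Q p.1 + ∑ l, M l p.1 • z l) p.2) f = 0 := by
  classical
  obtain ⟨N, hN⟩ := bez hD n D B
  refine ⟨N, ?_⟩
  intro L _ _ _ d f hf hd Q m M hM S hS hzero
  have key : ∀ k : ℕ, k ≤ m → ∀ z : Fin m → SPt (algebraMap K L a) (algebraMap K L b),
      (∀ l : Fin m, k ≤ l.1 → z l ∈ S) →
      eval (fun p => TH954.crd (Q p.1 + ∑ l, M l p.1 • z l) p.2) f = 0 := by
    intro k
    induction k with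
    | zero =>
      intro _ z hz
      exact hzero z (fun l => hz l (Nat.zero_le _))
    | succ k ih =>
      intro hk z hz
      set l0 : Fin m := ⟨k, hk⟩ with hl0
      have e : ∀ (y : SPt (algebraMap K L a) (algebraMap K L b)) (i : Fin n),
          Q i + ∑ l, M l i • Function.update z l0 y l =
            (Q i + ∑ l ∈ Finset.univ.erase l0, M l i • z l) + M l0 i • y := by
        intro y i
        rw [← Finset.add_sum_erase _ _ (Finset.mem_univ l0), Function.update_self]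
        have : ∑ x ∈ Finset.univ.erase l0, M x i • Function.update z l0 y x =
            ∑ l ∈ Finset.univ.erase l0, M l i • z l := by
          refine Finset.sum_congr rfl (fun x hx => ?_)
          rw [Function.update_of_ne (Finset.ne_of_mem_erase hx)]
        rw [this]
        abel
      have h1 := hN L d f hf hd (fun i => Q i + ∑ l ∈ Finset.univ.erase l0, M l i • z l) (M l0)
        (hM l0) S hS (by
          intro y hy
          have h2 := ih (by omega) (Function.update z l0 y) (by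
            intro l hl
            by_cases hll : l = l0
            · rw [hll, Function.update_self]
              exact hy
            · rw [Function.update_of_ne hll]
              refine hz l ?_
              have : l.1 ≠ k := fun h => hll (Fin.ext h)
              omega)
          simp_rw [e] at h2
          exact h2) (z l0)
      have h3 : Function.update z l0 (z l0) = z := Function.update_eq_self _ _
      have h4 : ∀ i, Q i + ∑ l, M l i • z l =
          (Q i + ∑ l ∈ Finset.univ.erase l0, M l i • z l) + M l0 i • z l0 := by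
        intro i
        have := e (z l0) i
        rwa [h3] at this
      simp_rw [h4]
      exact h1
  intro z
  exact key m le_rfl z (fun l hl => absurd l.2 (by omega))

end Pool.Agent.Y213.TM
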