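import Pool.Agent.Y213.TM.Main1

/-!
# Points of large height: the dilates stay on the subvariety
-/

set_option autoImplicit false
set_option linter.unusedSectionVars false

open MvPolynomial WeierstrassCurve NumberField Height Pool.Agent.TH942 Pool.Agent.TH954
  Pool.Agent.TH954.V

namespace Pool.Agent.Y213.TM

theorem big {K : Type} [Field K] [NumberField K] {a b : K} (hD : 4 * a ^ 3 + 27 * b ^ 2 ≠ 0)
    (n D B : ℕ) (C1 c1 : ℝ) (hC1 : 0 ≤ C1) (hc1 : 0 ≤ c1) : ∃ K' : ℝ, 1 ≤ K' ∧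
      ∀ (L : Type) [Field L] [NumberField L] [DecidableEq L] [Algebra K L]
        (q : SPt (algebraMap K L a) (algebraMap K L b) → ℝ), IsCan C1 q →
      ∀ R1 : SPt (algebraMap K L a) (algebraMap K L b), ¬ IsOfFinAddOrder R1 →
        q R1 ≤ c1 * Module.finrank ℚ L →
      ∀ h : ℝ, 0 ≤ h → ∀ (d : Fin n → ℕ) (f : MvPolynomial (Fin n × Fin 3) L), MultiHom d f →
        ∑ i, d i ≤ D → pht f ≤ h * Module.finrank ℚ L →
      ∀ (R : SPt (algebraMap K L a) (algebraMap K L b))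
        (τ : Fin n → SPt (algebraMap K L a) (algebraMap K L b)),
        (∀ i, logHeight (TH954.crd (τ i)) ≤ h * Module.finrank ℚ L) →
        K' * ((1 + h) * Module.finrank ℚ L) < q R →
      ∀ t : Fin n → ℤ, (∀ i, |t i| ≤ B) →
        eval (fun p => TH954.crd (t p.1 • R + τ p.1) p.2) f = 0 →
        ∀ z : SPt (algebraMap K L a) (algebraMap K L b),
          eval (fun p => TH954.crd (t p.1 • z + τ p.1) p.2) f = 0 := by
  classical
  obtain ⟨N, hN⟩ := bez hD n D B
  obtain ⟨C, hC0, hC⟩ := core hD n D B C1 hC1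
  refine ⟨6 + 18 * (D : ℝ) * (1 + C1 + B ^ 2 * N ^ 2 * c1) + 3 * C + 2 * (N ^ 2 * c1), ?_, ?_⟩
  · have h1 : 0 ≤ 18 * (D : ℝ) * (1 + C1 + B ^ 2 * N ^ 2 * c1) := by positivity
    have h2 : 0 ≤ 2 * ((N : ℝ) ^ 2 * c1) := by positivity
    linarith
  intro L _ _ _ _ q hq R1 hR1 hqR1 h hh d f hf hd hpf R τ hτ hbig t ht hzero z
  set DL : ℝ := (Module.finrank ℚ L : ℝ) with hDL
  have hDL1 : 1 ≤ DL := by
    have : 1 ≤ Module.finrank ℚ L := Module.finrank_pos
    rw [hDL]
    exact_mod_cast this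
  have hDL0 : 0 ≤ DL := zero_le_one.trans hDL1
  have hinj : Function.Injective (fun j : ℕ => j • R1) :=
    injective_nsmul_iff_not_isOfFinAddOrder.mpr hR1
  have hqj : ∀ j : ℕ, j ≤ N → q (j • R1) ≤ N ^ 2 * c1 * DL := by
    intro j hj
    rw [q_nsmul hq.par]
    have h1 : ((j : ℝ)) ^ 2 ≤ (N : ℝ) ^ 2 := pow_le_pow_left₀ (Nat.cast_nonneg _)
      (by exact_mod_cast hj) 2
    calc (j : ℝ) ^ 2 * q R1 ≤ (N : ℝ) ^ 2 * (c1 * DL) :=
          mul_le_mul h1 hqR1 (hq.nonneg _) (by positivity)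
      _ = _ := by ring
  have hall : ∀ j : ℕ, j ≤ N →
      eval (fun p => TH954.crd (τ p.1 + t p.1 • j • R1) p.2) f = 0 := by
    intro j hj
    by_contra hne
    have hW : R - j • R1 ≠ 0 := by
      intro h0
      apply hne
      rw [sub_eq_zero] at h0
      rw [← h0]
      simp_rw [add_comm (τ _)]
      exact hzero
    have h1 := hC L q hq.le_ht hq.ht_le d f hf hd (fun i => τ i + t i • j • R1) (R - j • R1) t ht
      hW (by
        have e : ∀ i, τ i + t i • j • R1 + t i • (R - j • R1) = t i • R + τ i := by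
          intro i
          rw [smul_sub]
          abel
        simp_rw [e]
        exact hzero) hne
    have h2 : ∀ i, q (τ i + t i • j • R1) ≤ 2 * ((h + C1) * DL + B ^ 2 * N ^ 2 * c1 * DL) := by
      intro i
      refine (q_add_le hq.par hq.nonneg _ _).trans ?_
      rw [q_zsmul hq.par]
      have h3 : ((t i : ℝ)) ^ 2 ≤ (B : ℝ) ^ 2 := by
        rw [← sq_abs]
        refine pow_le_pow_left₀ (abs_nonneg _) ?_ 2
        have := ht i
        have h4 : ((|t i| : ℤ) : ℝ) ≤ ((B : ℤ) : ℝ) := by exact_mod_cast this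
        push_cast at h4
        exact h4
      have h4 : (t i : ℝ) ^ 2 * q (j • R1) ≤ B ^ 2 * N ^ 2 * c1 * DL := by
        calc (t i : ℝ) ^ 2 * q (j • R1) ≤ (B : ℝ) ^ 2 * (N ^ 2 * c1 * DL) :=
            mul_le_mul h3 (hqj j hj) (hq.nonneg _) (by positivity)
          _ = _ := by ring
      have h5 := hq.le_ht (τ i)
      have h6 := hτ i
      nlinarith
    have h3 : ∑ i, (d i : ℝ) * q (τ i + t i • j • R1) ≤
        D * (2 * ((h + C1) * DL + B ^ 2 * N ^ 2 * c1 * DL)) := by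
      calc ∑ i, (d i : ℝ) * q (τ i + t i • j • R1)
          ≤ ∑ i, (d i : ℝ) * (2 * ((h + C1) * DL + B ^ 2 * N ^ 2 * c1 * DL)) :=
            Finset.sum_le_sum (fun i _ => mul_le_mul_of_nonneg_left (h2 i) (Nat.cast_nonneg _))
        _ = (∑ i, (d i : ℝ)) * (2 * ((h + C1) * DL + B ^ 2 * N ^ 2 * c1 * DL)) := by
            rw [Finset.sum_mul]
        _ ≤ D * (2 * ((h + C1) * DL + B ^ 2 * N ^ 2 * c1 * DL)) := by
            refine mul_le_mul_of_nonneg_right ?_ (by positivity)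
            exact_mod_cast hd
    have h4 : q R ≤ 2 * (q (R - j • R1) + q (j • R1)) := by
      have := q_add_le hq.par hq.nonneg (R - j • R1) (j • R1)
      rwa [sub_add_cancel] at this
    have h5 := hqj j hj
    have h8 : 0 ≤ h * DL := mul_nonneg hh hDL0
    have hD0 : (0 : ℝ) ≤ D := Nat.cast_nonneg _
    have e1 : 0 ≤ (D : ℝ) * (B ^ 2 * N ^ 2 * c1) * (h * DL) := by positivity
    have e2 : 0 ≤ ((N : ℝ) ^ 2 * c1) * (h * DL) := by positivity
    have e3 : 0 ≤ C * (h * DL) := by positivity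
    have e4 : 0 ≤ (D : ℝ) * C1 * (h * DL) := by positivity
    have e5 : 0 ≤ (D : ℝ) * DL := by positivity
    have h11 : (6 + 18 * (D : ℝ) * (1 + C1 + B ^ 2 * N ^ 2 * c1) + 3 * C + 2 * (N ^ 2 * c1)) *
        ((1 + h) * DL) = 6 * DL + 6 * (h * DL) + 18 * (D * DL) + 18 * (D * (h * DL)) +
          18 * (D * C1 * DL) + 18 * (D * C1 * (h * DL)) + 18 * (D * (B ^ 2 * N ^ 2 * c1) * DL) +
          18 * (D * (B ^ 2 * N ^ 2 * c1) * (h * DL)) + 3 * (C * DL) + 3 * (C * (h * DL)) +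
          2 * (N ^ 2 * c1 * DL) + 2 * ((N ^ 2 * c1) * (h * DL)) := by ring
    rw [h11] at hbig
    have h12 : (D : ℝ) * (2 * ((h + C1) * DL + B ^ 2 * N ^ 2 * c1 * DL)) =
        2 * (D * (h * DL)) + 2 * (D * C1 * DL) + 2 * (D * (B ^ 2 * N ^ 2 * c1) * DL) := by ring
    rw [h12] at h3
    linarith
  have h9 := hN L d f hf hd τ t ht ((Finset.range (N + 1)).image (fun j : ℕ => j • R1)) (by
      rw [Finset.card_image_of_injective _ hinj, Finset.card_range]
      omega) (by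
      intro z hz
      obtain ⟨j, hj, rfl⟩ := Finset.mem_image.mp hz
      exact hall j (by
        rw [Finset.mem_range] at hj
        omega)) z
  simp_rw [add_comm (τ _)] at h9
  exact h9

end Pool.Agent.Y213.TM
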