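import Pool.Agent.Y213.TM.Inf
import Pool.Agent.Y674.TM.Comb

/-!
# The structure of the points of rank one on the subvarieties
-/

set_option autoImplicit false
set_option linter.unusedSectionVars false

open MvPolynomial WeierstrassCurve NumberField Height Pool.Agent.TH942 Pool.Agent.TH954
  Pool.Agent.TH954.V

namespace Pool.Agent.Y213.TM

theorem big' {K : Type} [Field K] [NumberField K] {a b : K} (hD : 4 * a ^ 3 + 27 * b ^ 2 ≠ 0)
    (n D B : ℕ) (C1 : ℝ) (hC1 : 0 ≤ C1)
    (hcan : ∀ (L : Type) [Field L] [NumberField L] [DecidableEq L] [Algebra K L],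
      ∃ q : SPt (algebraMap K L a) (algebraMap K L b) → ℝ, IsCan C1 q) : ∃ K' : ℝ, 1 ≤ K' ∧
      ∀ (L : Type) [Field L] [NumberField L] [DecidableEq L] [Algebra K L]
        (q : SPt (algebraMap K L a) (algebraMap K L b) → ℝ), IsCan C1 q →
      ∀ h : ℝ, 0 ≤ h → ∀ (d : Fin n → ℕ) (f : MvPolynomial (Fin n × Fin 3) L), MultiHom d f →
        ∑ i, d i ≤ D → pht f ≤ h * Module.finrank ℚ L →
      ∀ (R : SPt (algebraMap K L a) (algebraMap K L b))
        (τ : Fin n → SPt (algebraMap K L a) (algebraMap K L b)),
        (∀ i, logHeight (TH954.crd (τ i)) ≤ h * Module.finrank ℚ L) →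
        K' * ((1 + h) * Module.finrank ℚ L) < q R →
      ∀ t : Fin n → ℤ, (∀ i, |t i| ≤ B) →
        eval (fun p => TH954.crd (t p.1 • R + τ p.1) p.2) f = 0 →
        ∀ z : SPt (algebraMap K L a) (algebraMap K L b),
          eval (fun p => TH954.crd (t p.1 • z + τ p.1) p.2) f = 0 := by
  classical
  obtain ⟨c1, hc1, hinf⟩ := inf_ext hD C1 hC1
  obtain ⟨K0, hK0, hbig⟩ := big hD n D B C1 c1 hC1 hc1
  refine ⟨3 / 2 * K0 + 2 * C1 + 1, by linarith, ?_⟩
  intro L _ _ _ _ q hq h hh d f hf hd hpf R τ hτ hlarge t ht hzero z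
  obtain ⟨L', iF, iN, iDec, iA, iK, iT, R1, hR1⟩ := hinf L
  obtain ⟨q', hq'⟩ := hcan L'
  obtain ⟨hR1a, hR1b⟩ := hR1 q' hq'
  obtain ⟨ι, hι⟩ := lift_ex (F := L) (L := L') (algebraMap K L a) (algebraMap K L b)
    (algebraMap K L' a) (algebraMap K L' b) (IsScalarTower.algebraMap_apply K L L' a).symm
    (IsScalarTower.algebraMap_apply K L L' b).symm
  have hdeg : (Module.finrank ℚ L' : ℝ) = Module.finrank ℚ L * Module.finrank L L' := by
    rw [← Module.finrank_mul_finrank ℚ L L']
    push_cast
    rfl
  have hfd : FiniteDimensional L L' := Module.Finite.of_restrictScalars_finite ℚ L L'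
  have hf1 : (1 : ℝ) ≤ Module.finrank L L' := by
    have : 1 ≤ Module.finrank L L' := Module.finrank_pos
    exact_mod_cast this
  have hQ1 : (1 : ℝ) ≤ Module.finrank ℚ L := by
    have : 1 ≤ Module.finrank ℚ L := Module.finrank_pos
    exact_mod_cast this
  have hpf' : pht (map (algebraMap L L') f) ≤ h * Module.finrank ℚ L' := by
    refine (pht_map f).trans ?_
    rw [hdeg]
    have := mul_le_mul_of_nonneg_left hpf (zero_le_one.trans hf1)
    linarith
  have hcrd : ∀ P, logHeight (TH954.crd (ι P)) =
      Module.finrank L L' * logHeight (TH954.crd P) := by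
    intro P
    rw [← Helper259.HtExt.logHeight_ext (L := L')]
    congr 1
    funext j
    exact hι P j
  have hcrdR := hcrd R
  have hR' : K0 * ((1 + h) * Module.finrank ℚ L') < q' (ι R) := by
    have h1 := hq'.ht_le (ι R)
    have h2 := hq.le_ht R
    rw [hcrdR, hdeg] at h1
    rw [hdeg]
    have h3 : (Module.finrank L L' : ℝ) * ((3 / 2 * K0 + 2 * C1 + 1) * ((1 + h) *
        Module.finrank ℚ L)) < Module.finrank L L' * (logHeight (TH954.crd R) + C1 *
        Module.finrank ℚ L) := mul_lt_mul_of_pos_left (hlarge.trans_le h2) (by linarith)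
    set u : ℝ := (Module.finrank L L' : ℝ) with hu
    set v : ℝ := (Module.finrank ℚ L : ℝ) with hv
    have h4 : 0 ≤ u * v := by positivity
    have h5 : 0 ≤ h * (u * v) := mul_nonneg hh h4
    have h6 : 0 ≤ C1 * (h * (u * v)) := mul_nonneg hC1 h5
    nlinarith
  have hτ' : ∀ i, logHeight (TH954.crd (ι (τ i))) ≤ h * Module.finrank ℚ L' := by
    intro i
    rw [hcrd, hdeg]
    have := mul_le_mul_of_nonneg_left (hτ i) (zero_le_one.trans hf1)
    linarith
  have hz : eval (fun p => TH954.crd (t p.1 • ι R + ι (τ p.1)) p.2) (map (algebraMap L L') f) =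
      0 := by
    have h1 := eval_lift (fun i => t i • R + τ i) (fun i => t i • ι R + ι (τ i)) (by
      intro i j
      rw [← map_zsmul, ← map_add]
      exact hι _ j) f
    rw [h1, hzero, map_zero]
  have h2 := hbig L' q' hq' R1 hR1a hR1b h hh d _ (multiHom_map hf) hd hpf' (ι R)
    (fun i => ι (τ i)) hτ' hR' t ht hz (ι z)
  have h3 := eval_lift (fun i => t i • z + τ i) (fun i => t i • ι z + ι (τ i)) (by
    intro i j
    rw [← map_zsmul, ← map_add]
    exact hι _ j) f
  rw [h2] at h3
  exact (map_eq_zero (algebraMap L L')).mp h3.symm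

/-- the closed set given by `F` contains the coset `Q + M E ^ m`, over all extension fields -/
def InX {K L : Type} [Field K] [Field L] [DecidableEq L] [Algebra K L] {a b : K} {n m : ℕ}
    (F : Set (MvPolynomial (Fin n × Fin 3) L))
    (Q : Fin n → SPt (algebraMap K L a) (algebraMap K L b)) (M : Fin m → Fin n → ℤ) : Prop :=
  ∀ (L' : Type) [Field L'] [DecidableEq L'] [Algebra K L'] [Algebra L L'] [IsScalarTower K L L']
    (ι : SPt (algebraMap K L a) (algebraMap K L b) →+
      SPt (algebraMap K L' a) (algebraMap K L' b)),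
    (∀ P j, TH954.crd (ι P) j = algebraMap L L' (TH954.crd P j)) →
    ∀ z : Fin m → SPt (algebraMap K L' a) (algebraMap K L' b), ∀ f ∈ F,
      eval (fun p => TH954.crd (ι (Q p.1) + ∑ l, M l p.1 • z l) p.2)
        (map (algebraMap L L') f) = 0

lemma lift_inj {L L' : Type} [Field L] [Field L'] [DecidableEq L] [DecidableEq L']
    [Algebra L L'] {a b : L} {a' b' : L'} {ι : SPt a b →+ SPt a' b'}
    (hι : ∀ P j, TH954.crd (ι P) j = algebraMap L L' (TH954.crd P j)) :
    Function.Injective ι := by
  intro P Q h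
  apply crd_inj
  funext j
  apply (algebraMap L L').injective
  rw [← hι, ← hι, h]

theorem asm {K : Type} [Field K] [NumberField K] {a b : K} (hD : 4 * a ^ 3 + 27 * b ^ 2 ≠ 0)
    (n D : ℕ) (C1 : ℝ) (hC1 : 0 ≤ C1)
    (hcan : ∀ (L : Type) [Field L] [NumberField L] [DecidableEq L] [Algebra K L],
      ∃ q : SPt (algebraMap K L a) (algebraMap K L b) → ℝ, IsCan C1 q) :
    ∃ (C2 : ℝ) (B2 : ℕ), 0 ≤ C2 ∧
      ∀ (L : Type) [Field L] [NumberField L] [DecidableEq L] [Algebra K L]
        (q : SPt (algebraMap K L a) (algebraMap K L b) → ℝ), IsCan C1 q →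
      ∀ h : ℝ, 0 ≤ h → ∀ F : Set (MvPolynomial (Fin n × Fin 3) L), Deg D F →
        (∀ f ∈ F, pht f ≤ h * Module.finrank ℚ L) →
      ∀ (R : SPt (algebraMap K L a) (algebraMap K L b))
        (τ : Fin n → SPt (algebraMap K L a) (algebraMap K L b)), ¬ IsOfFinAddOrder R →
        (∀ i, logHeight (TH954.crd (τ i)) ≤ h * Module.finrank ℚ L) → ∀ t ∈ TT F R τ,
      ∃ (Q : Fin n → SPt (algebraMap K L a) (algebraMap K L b)) (M : Fin (n + 1) → Fin n → ℤ),
        (∀ l i, |M l i| ≤ B2) ∧ (∀ i, q (Q i) ≤ C2 * ((1 + h) * Module.finrank ℚ L)) ∧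
        (∃ z : Fin (n + 1) → SPt (algebraMap K L a) (algebraMap K L b), ∀ i,
          t i • R + τ i = Q i + ∑ l, M l i • z l) ∧ InX F Q M := by
  classical
  obtain ⟨κ, hκ⟩ := hasD_ex hD n D C1 hC1
  obtain ⟨N, hN⟩ := hasB_ex hD n D
  obtain ⟨C, B, hcomb⟩ := Pool.Agent.Y674.TM.comb n (5 * (D + 1)) κ N
  obtain ⟨NM, hNM⟩ := bezM hD n D B
  obtain ⟨NS, hNS⟩ := bez hD n D C
  obtain ⟨K', hK', hbig⟩ := big' hD n D (C + n * (NM * B)) C1 hC1 hcan
  refine ⟨2 * ((C : ℝ) ^ 2 * (2 + 2 * K') + (1 + C1)), max B C, by positivity, ?_⟩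
  intro L _ _ _ _ q hq h hh F hF hpF R τ hR hτ t ht
  have hB := hN L F hF R τ hR
  have hqR : 0 < q R := q_pos' hq hR
  set DL : ℝ := (Module.finrank ℚ L : ℝ) with hDL
  have hDL1 : 1 ≤ DL := by
    have : 1 ≤ Module.finrank ℚ L := Module.finrank_pos
    rw [hDL]
    exact_mod_cast this
  set H : ℝ := (1 + h) * DL with hH
  have hH1 : 1 ≤ H := by nlinarith
  have hqτ : ∀ i, q (τ i) ≤ (1 + C1) * H := by
    intro i
    have h3 := hq.le_ht (τ i)
    have h4 := hτ i
    have h5 : 0 ≤ C1 * (h * DL) := by positivity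
    rw [hH]
    nlinarith
  have hinj : Function.Injective (fun j : ℕ => j • R) :=
    injective_nsmul_iff_not_isOfFinAddOrder.mpr hR
  rcases le_or_gt (q R) (K' * H) with hcase | hcase
  · -- small height
    set k0 : ℕ := ⌈Real.sqrt (H / q R)⌉₊ with hk0
    have hk01 : 1 ≤ k0 := by
      rw [hk0, Nat.one_le_ceil_iff]
      positivity
    have hk02 : Real.sqrt (H / q R) ≤ k0 := Nat.le_ceil _
    have hk03 : (k0 : ℝ) < Real.sqrt (H / q R) + 1 := Nat.ceil_lt_add_one (Real.sqrt_nonneg _)
    have hk04 : H ≤ (k0 : ℝ) ^ 2 * q R := by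
      have h1 : H / q R ≤ (k0 : ℝ) ^ 2 := by
        rw [← Real.sq_sqrt (show 0 ≤ H / q R by positivity)]
        exact pow_le_pow_left₀ (Real.sqrt_nonneg _) hk02 2
      rwa [div_le_iff₀ hqR] at h1
    have hk05 : (k0 : ℝ) ^ 2 * q R ≤ (2 + 2 * K') * H := by
      have h1 : (k0 : ℝ) ^ 2 ≤ 2 * (H / q R) + 2 := by
        have h2 : (k0 : ℝ) ^ 2 ≤ (Real.sqrt (H / q R) + 1) ^ 2 :=
          pow_le_pow_left₀ (Nat.cast_nonneg _) hk03.le 2
        have h3 := Real.sq_sqrt (show 0 ≤ H / q R by positivity)
        nlinarith [sq_nonneg (Real.sqrt (H / q R) - 1)]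
      have h4 : H / q R * q R = H := div_mul_cancel₀ _ hqR.ne'
      nlinarith
    have hDD := hκ L q hq h hh F hF hpF R τ hR hτ k0 hk01 hk04
    obtain ⟨s, M, hs, hM, ⟨z, hz⟩, hall⟩ := hcomb k0 hk01 _ hDD hB t ht
    refine ⟨fun i => s i • R + τ i, Fin.cons 0 M, ?_, ?_, ?_, ?_⟩
    · intro l i
      refine Fin.cases ?_ (fun l => ?_) l
      · simp
      · rw [Fin.cons_succ]
        exact (hM l i).trans (by exact_mod_cast le_max_left _ _)
    · intro i
      refine (q_add_le hq.par hq.nonneg _ _).trans ?_
      rw [q_zsmul hq.par]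
      have h1 : ((s i : ℝ)) ^ 2 ≤ ((C : ℝ) * k0) ^ 2 := by
        rw [← sq_abs]
        refine pow_le_pow_left₀ (abs_nonneg _) ?_ 2
        have := hs i
        have h4 : ((|s i| : ℤ) : ℝ) ≤ ((C * k0 : ℤ) : ℝ) := by exact_mod_cast this
        push_cast at h4
        exact h4
      have h6 : (s i : ℝ) ^ 2 * q R ≤ (C : ℝ) ^ 2 * ((2 + 2 * K') * H) := by
        calc (s i : ℝ) ^ 2 * q R ≤ ((C : ℝ) * k0) ^ 2 * q R :=
              mul_le_mul_of_nonneg_right h1 hqR.le
          _ = (C : ℝ) ^ 2 * ((k0 : ℝ) ^ 2 * q R) := by ring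
          _ ≤ (C : ℝ) ^ 2 * ((2 + 2 * K') * H) := mul_le_mul_of_nonneg_left hk05 (by positivity)
      have h7 := hqτ i
      calc 2 * ((s i : ℝ) ^ 2 * q R + q (τ i)) ≤
          2 * ((C : ℝ) ^ 2 * ((2 + 2 * K') * H) + (1 + C1) * H) := by linarith
        _ = _ := by ring
    · refine ⟨Fin.cons 0 (fun l => z l • R), fun i => ?_⟩
      rw [Fin.sum_univ_succ]
      simp only [Fin.cons_zero, Fin.cons_succ, smul_zero, zero_add]
      have h1 : t i = s i + ∑ l, z l * M l i := by
        rw [hz, Pi.add_apply, Finset.sum_apply]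
        rfl
      rw [h1, add_smul, Finset.sum_smul]
      have h2 : ∀ l, (z l * M l i) • R = M l i • z l • R := by
        intro l
        rw [smul_smul, mul_comm]
      simp_rw [h2]
      abel
    · intro L' _ _ _ _ _ ι hι y f hf
      obtain ⟨d, hd, hdD⟩ := hF f hf
      have hinj' : Function.Injective (fun j : ℕ => ι (j • R)) := (lift_inj hι).comp hinj
      have h1 := hNM L' d _ (multiHom_map hd) hdD (fun i => ι (s i • R + τ i)) n M hM
        ((Finset.range (NM + 1)).image (fun j : ℕ => ι (j • R))) (by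
          rw [Finset.card_image_of_injective _ hinj', Finset.card_range]
          omega) (by
          intro y hy
          have h2 : ∀ l, ∃ j : ℕ, ι (j • R) = y l := by
            intro l
            obtain ⟨j, -, hj⟩ := Finset.mem_image.mp (hy l)
            exact ⟨j, hj⟩
          choose j hj using h2
          have h3 := hall (fun l => (j l : ℤ)) f hf
          have h4 := eval_lift (fun i => (s + ∑ l, ((j l : ℕ) : ℤ) • M l) i • R + τ i)
            (fun i => ι (s i • R + τ i) + ∑ l, M l i • y l) (by
              intro i e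
              rw [← hι]
              congr 1
              have h5 : (s + ∑ l, ((j l : ℕ) : ℤ) • M l) i • R + τ i =
                  (s i • R + τ i) + ∑ l, M l i • (j l) • R := by
                rw [Pi.add_apply, Finset.sum_apply, add_smul, Finset.sum_smul]
                have h6 : ∀ l, (((j l : ℕ) : ℤ) • M l) i • R = M l i • (j l) • R := by
                  intro l
                  rw [Pi.smul_apply, smul_eq_mul, mul_comm, mul_smul, natCast_zsmul]
                simp_rw [h6]
                abel
              rw [h5, map_add ι (s i • R + τ i), map_sum]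
              congr 1
              refine Finset.sum_congr rfl (fun l _ => ?_)
              rw [map_zsmul, hj]) f
          rw [h4, h3, map_zero]) (fun l => y l.succ)
      have h7 : ∀ i, ι (s i • R + τ i) + ∑ l, (Fin.cons 0 M : Fin (n + 1) → Fin n → ℤ) l i • y l =
          ι (s i • R + τ i) + ∑ l, M l i • y l.succ := by
        intro i
        rw [Fin.sum_univ_succ]
        simp only [Fin.cons_zero, Fin.cons_succ, Pi.zero_apply, zero_smul, zero_add]
      simp_rw [h7]
      exact h1
  · -- large height
    have hk04 : H ≤ ((1 : ℕ) : ℝ) ^ 2 * q R := by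
      push_cast
      nlinarith
    have hDD := hκ L q hq h hh F hF hpF R τ hR hτ 1 le_rfl hk04
    obtain ⟨s, M, hs, hM, ⟨z, hz⟩, hall⟩ := hcomb 1 le_rfl _ hDD hB t ht
    have hs' : ∀ i, |s i| ≤ (C : ℤ) := by
      intro i
      have := hs i
      simpa using this
    refine ⟨τ, Fin.cons s M, ?_, ?_, ?_, ?_⟩
    · intro l i
      refine Fin.cases ?_ (fun l => ?_) l
      · rw [Fin.cons_zero]
        exact (hs' i).trans (by exact_mod_cast le_max_right _ _)
      · rw [Fin.cons_succ]
        exact (hM l i).trans (by exact_mod_cast le_max_left _ _)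
    · intro i
      refine (hqτ i).trans ?_
      have h6 : 0 ≤ (C : ℝ) ^ 2 * (2 + 2 * K') * H := by positivity
      have h7 : 0 ≤ (1 + C1) * H := by positivity
      linarith
    · refine ⟨Fin.cons R (fun l => z l • R), fun i => ?_⟩
      rw [Fin.sum_univ_succ]
      simp only [Fin.cons_zero, Fin.cons_succ]
      have h1 : t i = s i + ∑ l, z l * M l i := by
        rw [hz, Pi.add_apply, Finset.sum_apply]
        rfl
      rw [h1, add_smul, Finset.sum_smul]
      have h2 : ∀ l, (z l * M l i) • R = M l i • z l • R := by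
        intro l
        rw [smul_smul, mul_comm]
      simp_rw [h2]
      abel
    · intro L' _ _ _ _ _ ι hι y f hf
      obtain ⟨d, hd, hdD⟩ := hF f hf
      -- bounded combinations
      have hbd : ∀ j : Fin n → ℕ, (∀ l, j l ≤ NM) →
          ∀ x : SPt (algebraMap K L a) (algebraMap K L b),
            eval (fun p => TH954.crd ((s + ∑ l, ((j l : ℕ) : ℤ) • M l) p.1 • x + τ p.1) p.2) f =
              0 := by
        intro j hj
        refine hbig L q hq h hh d f hd hdD (hpF f hf) R τ hτ hcase _ ?_ (hall _ f hf)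
        intro i
        rw [Pi.add_apply, Finset.sum_apply]
        refine (abs_add_le _ _).trans ?_
        push_cast
        refine add_le_add (hs' i) ((Finset.abs_sum_le_sum_abs _ _).trans ?_)
        calc ∑ l, |(((j l : ℕ) : ℤ) • M l) i| ≤ ∑ l : Fin n, ((NM : ℤ) * B) := by
              refine Finset.sum_le_sum (fun l _ => ?_)
              rw [Pi.smul_apply, smul_eq_mul, abs_mul]
              refine mul_le_mul ?_ (hM l i) (abs_nonneg _) (by positivity)
              rw [Nat.abs_cast]
              exact_mod_cast hj l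
          _ = n * ((NM : ℤ) * B) := by
              rw [Finset.sum_const, Finset.card_univ, Fintype.card_fin, nsmul_eq_mul]
      -- all directions but the first
      have hstep : ∀ x : SPt (algebraMap K L a) (algebraMap K L b), ¬ IsOfFinAddOrder x →
          ∀ y : Fin n → SPt (algebraMap K L' a) (algebraMap K L' b),
            eval (fun p => TH954.crd ((ι (τ p.1) + s p.1 • ι x) + ∑ l, M l p.1 • y l) p.2)
              (map (algebraMap L L') f) = 0 := by
        intro x hx
        have hinjx : Function.Injective (fun j : ℕ => j • x) :=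
          injective_nsmul_iff_not_isOfFinAddOrder.mpr hx
        have hinj' : Function.Injective (fun j : ℕ => ι (j • x)) := (lift_inj hι).comp hinjx
        refine hNM L' d _ (multiHom_map hd) hdD (fun i => ι (τ i) + s i • ι x) n M hM
          ((Finset.range (NM + 1)).image (fun j : ℕ => ι (j • x))) (by
            rw [Finset.card_image_of_injective _ hinj', Finset.card_range]
            omega) ?_
        intro y hy
        have h2 : ∀ l, ∃ j : ℕ, j ≤ NM ∧ ι (j • x) = y l := by
          intro l
          obtain ⟨j, hj1, hj⟩ := Finset.mem_image.mp (hy l)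
          rw [Finset.mem_range] at hj1
          exact ⟨j, by omega, hj⟩
        choose j hj1 hj using h2
        have h3 := hbd j hj1 x
        have h4 := eval_lift (fun i => (s + ∑ l, ((j l : ℕ) : ℤ) • M l) i • x + τ i)
          (fun i => (ι (τ i) + s i • ι x) + ∑ l, M l i • y l) (by
            intro i e
            rw [← hι]
            congr 1
            have h5 : (s + ∑ l, ((j l : ℕ) : ℤ) • M l) i • x + τ i =
                (τ i + s i • x) + ∑ l, M l i • (j l) • x := by
              rw [Pi.add_apply, Finset.sum_apply, add_smul, Finset.sum_smul]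
              have h6 : ∀ l, (((j l : ℕ) : ℤ) • M l) i • x = M l i • (j l) • x := by
                intro l
                rw [Pi.smul_apply, smul_eq_mul, mul_comm, mul_smul, natCast_zsmul]
              simp_rw [h6]
              abel
            rw [h5, map_add ι, map_sum, map_add ι, map_zsmul]
            congr 1
            refine Finset.sum_congr rfl (fun l _ => ?_)
            rw [map_zsmul, hj]) f
        rw [h4, h3, map_zero]
      -- the first direction
      have hinj2 : Function.Injective (fun j : ℕ => ι ((j + 1) • R)) :=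
        (lift_inj hι).comp (fun u v huv => by
          have := hinj huv
          omega)
      have h8 := hNS L' d _ (multiHom_map hd) hdD
        (fun i => ι (τ i) + ∑ l, M l i • y l.succ) s hs'
        ((Finset.range (NS + 1)).image (fun j : ℕ => ι ((j + 1) • R))) (by
          rw [Finset.card_image_of_injective _ hinj2, Finset.card_range]
          omega) (by
          intro w hw
          obtain ⟨j, -, rfl⟩ := Finset.mem_image.mp hw
          have h9 := hstep ((j + 1) • R) (by
            intro htors
            apply hR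
            rw [isOfFinAddOrder_iff_nsmul_eq_zero] at htors ⊢
            obtain ⟨m, hm, hm0⟩ := htors
            refine ⟨m * (j + 1), Nat.mul_pos hm (Nat.succ_pos _), ?_⟩
            rw [mul_nsmul']
            exact hm0) (fun l => y l.succ)
          have h10 : ∀ i, ι (τ i) + ∑ l, M l i • y l.succ + s i • ι ((j + 1) • R) =
              (ι (τ i) + s i • ι ((j + 1) • R)) + ∑ l, M l i • y l.succ := by
            intro i
            abel
          simp_rw [h10]
          exact h9) (y 0)
      have h11 : ∀ i, ι (τ i) + ∑ l, (Fin.cons s M : Fin (n + 1) → Fin n → ℤ) l i • y l =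
          ι (τ i) + ∑ l, M l i • y l.succ + s i • y 0 := by
        intro i
        rw [Fin.sum_univ_succ]
        simp only [Fin.cons_zero, Fin.cons_succ]
        abel
      simp_rw [h11]
      exact h8

end Pool.Agent.Y213.TM
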