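import Pool.Agent.Y213.TM.Lip

/-!
# A point and its translate by a multiple of a small point
-/

set_option autoImplicit false
set_option linter.unusedSectionVars false

open MvPolynomial WeierstrassCurve Pool.Agent.TH942 Pool.Agent.TH954 Pool.Agent.TH954.V

namespace Pool.Agent.Y213.TM

lemma kap_mono {K L : Type} [Field K] [Field L] [Algebra K L] {A A' : Finset K} {M M' : ℕ}
    (hA : A ⊆ A') (hM : M ≤ M') (w : AbsoluteValue L ℝ) : kap A M 1 w ≤ kap A' M' 1 w := by
  rw [kap_eq, kap_eq]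
  refine mul_le_mul (bnd_mono w hM) (cM_mono hA w) (zero_le_one.trans (one_le_cM A w)) ?_
  unfold bnd
  split_ifs
  · exact zero_le_one
  · exact Nat.cast_nonneg _

/-- the distance of the point `(x, y)` to the origin -/
noncomputable def del {L : Type} [Field L] (w : AbsoluteValue L ℝ) (x y : L) : ℝ :=
  max 1 (w x) / ⨆ j, w ((![x, y, 1] : Fin 3 → L) j)

lemma del_pos {L : Type} [Field L] (w : AbsoluteValue L ℝ) (x y : L) : 0 < del w x y := by
  refine div_pos (zero_lt_one.trans_le (le_max_left _ _)) (sup_pos w ?_)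
  intro h
  have := congrFun h 2
  simp at this

lemma del_le_one {L : Type} [Field L] (w : AbsoluteValue L ℝ) (x y : L) : del w x y ≤ 1 := by
  unfold del
  have h1 : w x ≤ ⨆ j, w ((![x, y, 1] : Fin 3 → L) j) := le_sup w (![x, y, 1] : Fin 3 → L) 0
  have h2 : (1 : ℝ) ≤ ⨆ j, w ((![x, y, 1] : Fin 3 → L) j) := by
    have := le_sup w (![x, y, 1] : Fin 3 → L) 2
    simpa using this
  rw [div_le_one (zero_lt_one.trans_le h2)]
  exact max_le h2 h1

theorem near_c {K : Type} [Field K] [CharZero K] {a b : K} (hD : 4 * a ^ 3 + 27 * b ^ 2 ≠ 0)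
    (c : ℤ) : ∃ (A : Finset K) (M : ℕ), 1 ≤ M ∧
      ∀ (A' : Finset K) (M' : ℕ), A ⊆ A' → M ≤ M' →
      ∀ (L : Type) [Field L] [DecidableEq L] [Algebra K L] (w : AbsoluteValue L ℝ)
        (Q : SPt (algebraMap K L a) (algebraMap K L b)) (x y : L)
        (h : (sw (algebraMap K L a) (algebraMap K L b)).toAffine.Nonsingular x y),
        bnd w 2 * kap A' M' 1 w ^ 2 * del w x y < 1 →
        ∀ j0, w (crd Q j0) = ⨆ j, w (crd Q j) → ∃ s : L, s ≠ 0 ∧ ∀ j,
          w (s * crd (Q + c • (Affine.Point.some x y h :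
            SPt (algebraMap K L a) (algebraMap K L b))) j - crd Q j / crd Q j0) ≤
            bnd w 2 * kap A' M' 1 w ^ 2 * del w x y := by
  classical
  obtain ⟨cc, hfam⟩ := fam' K a b hD 2
  obtain ⟨D, hD1, -, Fam, hhom, hrep⟩ := hfam ![1, c]
  obtain ⟨A1, M1, hM1, hA1⟩ := locL_fam hD Fam hhom hrep
  -- coefficients and numbers of monomials
  set A2 : Finset K := Fam.biUnion (fun C => Finset.univ.biUnion
    (fun j => (C j).support.image (fun m => coeff m (C j)))) with hA2
  set N2 : ℕ := nmon 2 (2 * D) * ((2 * D) * 2 ^ (2 * D)) with hN2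
  refine ⟨A1 ∪ A2, max M1 N2 + 2, by omega, ?_⟩
  intro A' M' hA' hM' L _ _ _ w Q x y h hδ j0 hj0
  set κ : ℝ := kap A' M' 1 w with hκ
  have hκ1 : 1 ≤ κ := one_le_kap A' (by omega) 1 w
  have hθ1 : 1 ≤ bnd w 2 := one_le_bnd w one_le_two
  set θ : ℝ := bnd w 2 with hθ
  set δ : ℝ := del w x y with hδd
  have hδ0 : 0 < δ := del_pos w x y
  have hδ1 : δ ≤ 1 := del_le_one w x y
  set W : SPt (algebraMap K L a) (algebraMap K L b) := Affine.Point.some x y h with hW
  have hcW : crd W = ![x, y, 1] := rfl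
  obtain ⟨C, hC, s0, hs0, hlow⟩ := hA1 L w ![Q, W]
  have hsum : ∑ j, (![1, c] : Fin 2 → ℤ) j • (![Q, W] : Fin 2 → SPt _ _) j = Q + c • W := by
    simp [Fin.sum_univ_two]
  rw [hsum] at hs0 hlow
  obtain ⟨hr, -⟩ := hrep L _ _ rfl rfl ![Q, 0]
  obtain ⟨r, hr0⟩ := hr C hC
  have hsum0 : ∑ j, (![1, c] : Fin 2 → ℤ) j •
      (![Q, 0] : Fin 2 → SPt (algebraMap K L a) (algebraMap K L b)) j = Q := by
    simp [Fin.sum_univ_two]
  rw [hsum0] at hr0
  -- the largest coordinates
  have hQpos : 0 < ⨆ j, w (crd Q j) := sup_pos w (crd_ne_zero _)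
  have hQj0 : crd Q j0 ≠ 0 := by
    rw [← w.pos_iff, hj0]
    exact hQpos
  obtain ⟨j1, hj1⟩ := exists_sup w (crd W)
  have hWpos : 0 < ⨆ j, w (crd W j) := sup_pos w (crd_ne_zero _)
  have hWj1 : crd W j1 ≠ 0 := by
    rw [← w.pos_iff, hj1]
    exact hWpos
  set l1 : L := (crd Q j0)⁻¹ with hl1
  set l2 : L := (crd W j1)⁻¹ with hl2
  set qh : Fin 3 → L := l1 • crd Q with hqh
  set wh : Fin 3 → L := l2 • crd W with hwh
  set zh : Fin 3 → L := (l2 * y) • crd (0 : SPt (algebraMap K L a) (algebraMap K L b)) with hzh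
  have hqsup : (⨆ j, w (qh j)) = 1 := by
    rw [hqh, sup_smul, hl1, map_inv₀, hj0]
    exact inv_mul_cancel₀ hQpos.ne'
  have hwsup : (⨆ j, w (wh j)) = 1 := by
    rw [hwh, sup_smul, hl2, map_inv₀, hj1]
    exact inv_mul_cancel₀ hWpos.ne'
  have hqle : ∀ j, w (qh j) ≤ 1 := fun j => by
    rw [← hqsup]
    exact le_sup w qh j
  have hwle : ∀ j, w (wh j) ≤ 1 := fun j => by
    rw [← hwsup]
    exact le_sup w wh j
  -- values of the forms
  have hv1 : ∀ j, evc (C j) ![qh, wh] = (l1 ^ D * l2 ^ D) * (s0 * crd (Q + c • W) j) := by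
    intro j
    have e1 : (![qh, wh] : Fin 2 → Fin 3 → L) =
        fun i => (![l1, l2] : Fin 2 → L) i • crd ((![Q, W] : Fin 2 → SPt _ _) i) := by
      funext i
      fin_cases i <;> rfl
    rw [e1, evc_smul (hhom C hC j)]
    have e2 : evc (C j) (fun i => crd ((![Q, W] : Fin 2 → SPt _ _) i)) =
        s0 * crd (Q + c • W) j := congrFun hs0 j
    rw [e2]
    simp [Fin.prod_univ_two]
  have hv2 : ∀ j, evc (C j) ![qh, zh] = (l1 ^ D * (l2 * y) ^ D) * (r * crd Q j) := by
    intro j
    have e1 : (![qh, zh] : Fin 2 → Fin 3 → L) =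
        fun i => (![l1, l2 * y] : Fin 2 → L) i • crd ((![Q, 0] :
          Fin 2 → SPt (algebraMap K L a) (algebraMap K L b)) i) := by
      funext i
      fin_cases i <;> rfl
    rw [e1, evc_smul (hhom C hC j)]
    have e2 : evc (C j) (fun i => crd ((![Q, 0] :
        Fin 2 → SPt (algebraMap K L a) (algebraMap K L b)) i)) = r * crd Q j := congrFun hr0 j
    rw [e2]
    simp [Fin.prod_univ_two]
  -- the difference of the two values
  have hdiff : ∀ j, w (evc (C j) ![qh, wh] - evc (C j) ![qh, zh]) ≤ κ * δ := by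
    intro j
    rw [evc_eq_eval, evc_eq_eval]
    have hf : MultiHom (fun _ : Fin 2 => D) (MvPolynomial.map (algebraMap K L) (C j)) :=
      MultiHom.map' (hhom C hC j)
    have hwh1 : wh 1 = l2 * y := rfl
    have h0 : w (wh 0) ≤ δ := by
      have : wh 0 = l2 * x := rfl
      rw [this, w.map_mul, hl2, map_inv₀, hj1, hδd, del, ← hcW, div_eq_inv_mul]
      exact mul_le_mul_of_nonneg_left (le_max_right _ _) (inv_nonneg.mpr hWpos.le)
    have h2 : w (wh 2) ≤ δ := by
      have : wh 2 = l2 * 1 := rfl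
      rw [this, w.map_mul, hl2, map_inv₀, hj1, hδd, del, ← hcW, div_eq_inv_mul, w.map_one]
      exact mul_le_mul_of_nonneg_left (le_max_left _ _) (inv_nonneg.mpr hWpos.le)
    have hz0 : zh 0 = 0 := by simp [hzh, crd_zero]
    have hz1 : zh 1 = wh 1 := by
      rw [hwh1]
      simp [hzh, crd_zero]
    have hz2 : zh 2 = 0 := by simp [hzh, crd_zero]
    have h3 := eval_sub_le (D := 2 * D) w hf (by simp [two_mul])
      (u := fun p => (![qh, zh] : Fin 2 → Fin 3 → L) p.1 p.2)
      (v := fun p => (![qh, wh] : Fin 2 → Fin 3 → L) p.1 p.2) hδ0.le hδ1 (by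
        rintro ⟨i, e⟩
        fin_cases i
        · exact hqle e
        · change w (zh e) ≤ 1
          fin_cases e
          · change w (zh 0) ≤ 1
            rw [hz0, w.map_zero]
            exact zero_le_one
          · change w (zh 1) ≤ 1
            rw [hz1]
            exact hwle 1
          · change w (zh 2) ≤ 1
            rw [hz2, w.map_zero]
            exact zero_le_one) (by
        rintro ⟨i, e⟩
        fin_cases i
        · change w (qh e - qh e) ≤ δ
          rw [sub_self, w.map_zero]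
          exact hδ0.le
        · change w (wh e - zh e) ≤ δ
          fin_cases e
          · change w (wh 0 - zh 0) ≤ δ
            rw [hz0, sub_zero]
            exact h0
          · change w (wh 1 - zh 1) ≤ δ
            rw [hz1, sub_self, w.map_zero]
            exact hδ0.le
          · change w (wh 2 - zh 2) ≤ δ
            rw [hz2, sub_zero]
            exact h2)
    refine h3.trans ?_
    have hcf : cfn w (MvPolynomial.map (algebraMap K L) (C j)) ≤ cM A' w := by
      refine ciSup_le (fun o => ?_)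
      match o with
      | none =>
        change w 1 ≤ _
        rw [w.map_one]
        exact one_le_cM A' w
      | some m =>
        change w (coeff m.1 (MvPolynomial.map (algebraMap K L) (C j))) ≤ _
        rw [coeff_map]
        by_cases hm : m.1 ∈ (C j).support
        · refine le_cM A' w (hA' (Finset.mem_union_right _ ?_))
          rw [hA2, Finset.mem_biUnion]
          exact ⟨C, hC, Finset.mem_biUnion.mpr ⟨j, Finset.mem_univ _,
            Finset.mem_image_of_mem _ hm⟩⟩
        · rw [notMem_support_iff.mp hm, map_zero, w.map_zero]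
          exact zero_le_one.trans (one_le_cM A' w)
    have hN : bnd w (nmon 2 (2 * D) * ((2 * D) * 2 ^ (2 * D))) ≤ bnd w M' :=
      bnd_mono w (by omega)
    calc _ ≤ bnd w M' * (cM A' w * δ) := by
          refine mul_le_mul hN (mul_le_mul_of_nonneg_right hcf hδ0.le) ?_ ?_
          · exact mul_nonneg (zero_le_one.trans (one_le_cfn _ _)) hδ0.le
          · exact zero_le_one.trans (one_le_bnd w (by omega))
      _ = κ * δ := by
          rw [hκ, kap_eq]
          ring
  -- the lower bound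
  have hlow' : 1 ≤ κ * ⨆ j, w (evc (C j) ![qh, wh]) := by
    have e1 : (⨆ j, w (evc (C j) ![qh, wh])) =
        w (l1 ^ D * l2 ^ D) * (w s0 * ⨆ j, w (crd (Q + c • W) j)) := by
      have e2 : (fun j => evc (C j) ![qh, wh]) = (l1 ^ D * l2 ^ D) • (s0 • crd (Q + c • W)) := by
        funext j
        exact hv1 j
      have e3 : (⨆ j, w (evc (C j) ![qh, wh])) =
          ⨆ j, w ((fun j => evc (C j) ![qh, wh]) j) := rfl
      rw [e3, e2, sup_smul, sup_smul]
    have e4 : ∏ j, (⨆ e, w (crd ((![Q, W] : Fin 2 → SPt _ _) j) e)) ^ D =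
        (⨆ e, w (crd Q e)) ^ D * (⨆ e, w (crd W e)) ^ D := by
      rw [Fin.prod_univ_two]
      rfl
    rw [e4] at hlow
    have hκ' : kap A1 M1 1 w ≤ κ := kap_mono (Finset.subset_union_left.trans hA') (by omega) w
    have h5 : (⨆ e, w (crd Q e)) ^ D * (⨆ e, w (crd W e)) ^ D ≤
        κ * (w s0 * ⨆ j, w (crd (Q + c • W) j)) :=
      hlow.trans (mul_le_mul_of_nonneg_right hκ'
        (mul_nonneg (w.nonneg _) (sup_pos w (crd_ne_zero _)).le))
    have h6 : w (l1 ^ D * l2 ^ D) * ((⨆ e, w (crd Q e)) ^ D * (⨆ e, w (crd W e)) ^ D) = 1 := by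
      rw [w.map_mul, w.map_pow, w.map_pow, hl1, hl2, map_inv₀, map_inv₀, hj0, hj1, inv_pow,
        inv_pow]
      have := (pow_pos hQpos D).ne'
      have := (pow_pos hWpos D).ne'
      field_simp
    rw [e1, ← h6]
    have := mul_le_mul_of_nonneg_left h5 (w.nonneg (l1 ^ D * l2 ^ D))
    linarith
  -- the scalar
  set ρ : L := l1 ^ D * (l2 * y) ^ D * r * crd Q j0 with hρ
  have hp : ∀ j, evc (C j) ![qh, zh] = ρ * qh j := by
    intro j
    rw [hv2, hρ, hqh]
    simp only [Pi.smul_apply, smul_eq_mul, hl1]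
    field_simp
  obtain ⟨j2, hj2⟩ := exists_sup w (fun j => evc (C j) ![qh, wh])
  have hsupv : κ⁻¹ ≤ w (evc (C j2) ![qh, wh]) := by
    have e3 : (⨆ j, w (evc (C j) ![qh, wh])) = w (evc (C j2) ![qh, wh]) := hj2.symm
    rw [e3] at hlow'
    rw [inv_le_iff_one_le_mul₀ (by linarith)]
    linarith
  have hκpos : 0 < κ := by linarith
  have hsmall : κ * δ < κ⁻¹ / θ := by
    rw [lt_div_iff₀ (by linarith), lt_inv_comm₀ (by positivity) hκpos]
    rw [lt_inv_comm₀ hκpos (by positivity)]
    rw [← one_div, lt_div_iff₀ hκpos]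
    calc κ * δ * θ * κ = θ * κ ^ 2 * δ := by ring
      _ < 1 := hδ
  have hρle : w (evc (C j2) ![qh, zh]) ≤ w ρ := by
    rw [hp, w.map_mul]
    exact mul_le_of_le_one_right (w.nonneg _) (hqle j2)
  have hρlow : κ⁻¹ / θ ≤ w ρ := by
    by_cases hw : Ult w
    · have hθ' : θ = 1 := by
        rw [hθ]
        unfold bnd
        rw [if_pos hw]
      rw [hθ', div_one] at hsmall ⊢
      by_contra hcon
      rw [not_le] at hcon
      have h7 := hw (evc (C j2) ![qh, wh] - evc (C j2) ![qh, zh]) (evc (C j2) ![qh, zh])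
      rw [sub_add_cancel] at h7
      have h8 := hdiff j2
      rcases le_max_iff.mp h7 with h9 | h9
      · linarith
      · linarith
    · have hθ' : θ = 2 := by
        rw [hθ]
        unfold bnd
        rw [if_neg hw]
        norm_num
      rw [hθ'] at hsmall ⊢
      have h7 := w.add_le (evc (C j2) ![qh, wh] - evc (C j2) ![qh, zh]) (evc (C j2) ![qh, zh])
      rw [sub_add_cancel] at h7
      have h8 := hdiff j2
      linarith
  have hρpos : 0 < w ρ := lt_of_lt_of_le (by positivity) hρlow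
  have hρ0 : ρ ≠ 0 := w.pos_iff.mp hρpos
  have hs0' : s0 ≠ 0 := by
    rintro rfl
    rw [hv1] at hsupv
    simp only [zero_mul, mul_zero, map_zero] at hsupv
    have : 0 < κ⁻¹ := inv_pos.mpr hκpos
    linarith
  refine ⟨l1 ^ D * l2 ^ D * s0 / ρ, ?_, fun j => ?_⟩
  · refine div_ne_zero (mul_ne_zero (mul_ne_zero (pow_ne_zero _ (inv_ne_zero hQj0))
      (pow_ne_zero _ (inv_ne_zero hWj1))) hs0') hρ0
  · have e5 : l1 ^ D * l2 ^ D * s0 / ρ * crd (Q + c • W) j - crd Q j / crd Q j0 =
        (evc (C j) ![qh, wh] - evc (C j) ![qh, zh]) / ρ := by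
      rw [hv1, hp, hqh]
      simp only [Pi.smul_apply, smul_eq_mul, hl1]
      field_simp
    rw [e5, map_div₀, div_le_iff₀ hρpos]
    refine (hdiff j).trans ?_
    have h9 : θ * κ ^ 2 * δ * (κ⁻¹ / θ) ≤ θ * κ ^ 2 * δ * w ρ :=
      mul_le_mul_of_nonneg_left hρlow (by positivity)
    refine le_trans (le_of_eq ?_) h9
    field_simp

end Pool.Agent.Y213.TM
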